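import Pool.Agent.Q280.Basilica.Conj

set_option autoImplicit false

/-!
# The vertices of level two above `1` are good
-/

namespace Q280.Basilica

variable {Ω : Type*} [Field Ω] [Algebra ℚ Ω] [IsAlgClosed Ω]

lemma Good.conj {k Ω : Type*} [Field k] [Field Ω] [Algebra k Ω] [IsAlgClosed Ω] {v : Ω}
    (h : Good k v) (ρ : Aut k Ω) : Good k (ρ v) := by
  have hv := h.ne
  have hv' := h.ne'
  obtain ⟨⟨σ, hσ, e1, e2⟩, ⟨τ, hτ, e3, e4⟩⟩ := h
  have mem : ∀ σ ∈ St k v, ρ * σ * ρ⁻¹ ∈ St k (ρ v) := by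
    intro σ hσ
    refine ⟨(inferInstance : (Γ k Ω).Normal).conj_mem σ hσ.1 ρ, ?_⟩
    show ρ (σ (ρ⁻¹ (ρ v))) = ρ v
    have : ρ⁻¹ (ρ v) = v := by
      show (ρ⁻¹ * ρ) v = v
      rw [inv_mul_cancel]; rfl
    rw [this, hσ.2]
  have e : 1 + ρ v = ρ (1 + v) := by rw [map_add, map_one]
  refine ⟨⟨_, mem σ hσ, ?_, ?_⟩, ⟨_, mem τ hτ, ?_, ?_⟩⟩
  · rw [κ_conj hσ hv, e1, map_neg, map_one]
  · rw [e, κ_conj (St_one_add hσ) hv', e2, map_one]
  · rw [κ_conj hτ hv, e3, map_one]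
  · rw [e, κ_conj (St_one_add hτ) hv', e4, map_neg, map_one]

/-- elements of `Γ` fix `√2` and `√(2 + √2)` -/
lemma Γ_fix {k Ω : Type*} [Field k] [Field Ω] [Algebra k Ω] [IsAlgClosed Ω] [CharZero Ω]
    {σ : Aut k Ω} (hσ : σ ∈ Γ k Ω) {r y : Ω} (hr : r ^ 2 = 2) (hy : y ^ 2 = 2 + r) :
    σ y = y ∧ σ r = r := by
  obtain ⟨d, hd⟩ := IsAlgClosed.exists_pow_nat_eq (y ^ 2 - 4) (n := 2) (by norm_num)
  set η := (y + d) / 2 with hη
  have h1 : η ^ 2 - y * η + 1 = 0 := by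
    rw [hη]
    have : (2 : Ω) ≠ 0 := two_ne_zero
    field_simp
    linear_combination hd
  have hη0 : η ≠ 0 := by
    intro h0
    rw [h0] at h1
    norm_num at h1
  -- `η` is a root of unity
  have h8 : η ^ 8 = -1 := by
    have e2 : η ^ 2 = y * η - 1 := by linear_combination h1
    have e4 : η ^ 4 = r * η ^ 2 - 1 := by
      have : η ^ 4 = (y ^ 2 - 2) * η ^ 2 - 1 := by
        linear_combination (η ^ 2 + y * η + 1) * h1
      rw [this, hy]; ring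
    linear_combination (η ^ 4 + r * η ^ 2 + 1) * e4 - (-(η ^ 4)) * hr + (0 : Ω) * e2
  have h16 : η ^ (2 ^ 4) = 1 := by
    calc η ^ (2 ^ 4) = (η ^ 8) ^ 2 := by rw [← pow_mul]; norm_num
      _ = 1 := by rw [h8]; ring
  have hση := hσ 4 η h16
  have hyη : y = η + η⁻¹ := by
    field_simp
    linear_combination -h1
  have hσy : σ y = y := by
    rw [hyη, map_add, map_inv₀, hση]
  refine ⟨hσy, ?_⟩
  have : r = y ^ 2 - 2 := by rw [hy]; ring
  rw [this, map_sub, map_pow, hσy, map_ofNat σ 2]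

/-- the criterion for a vertex `γ` with `γ² = 1 + √2` -/
lemma good_of_elements {k Ω : Type*} [Field k] [Field Ω] [Algebra k Ω] [IsAlgClosed Ω]
    [CharZero Ω] {r y γ w q : Ω} (hr : r ^ 2 = 2) (hy : y ^ 2 = 2 + r) (hγ : γ ^ 2 = 1 + r)
    (hw : w ^ 2 = y + 1 + r) (hw0 : w ≠ 0) (hq : q ^ 2 = r) {s τ : Aut k Ω}
    (hs : s ∈ Γ k Ω) (hτ : τ ∈ Γ k Ω) (s1 : s q = -q) (s2 : s γ = -γ) (t1 : τ γ = γ)
    (t2 : τ w = -w) : Good k γ := by
  have hr0 : r ≠ 0 := by rintro rfl; norm_num at hr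
  have hr1 : 1 + r ≠ 0 := by
    intro h
    have : r = -1 := by linear_combination h
    rw [this] at hr; norm_num at hr
  have hγ0 : γ ≠ 0 := by rintro rfl; apply hr1; rw [← hγ]; ring
  have hγm : (1 + γ) * (1 - γ) = -r := by linear_combination -hγ
  have hγ1 : 1 + γ ≠ 0 := by
    intro h; rw [h, zero_mul] at hγm; exact hr0 (neg_eq_zero.mp hγm.symm)
  have hγ2 : 1 - γ ≠ 0 := by
    intro h; rw [h, mul_zero] at hγm; exact hr0 (neg_eq_zero.mp hγm.symm)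
  have hq0 : q ≠ 0 := by rintro rfl; apply hr0; rw [← hq]; ring
  obtain ⟨sy, sr⟩ := Γ_fix hs hr hy
  obtain ⟨ty, tr⟩ := Γ_fix hτ hr hy
  have hsr : s ∈ St k r := ⟨hs, sr⟩
  -- symbols of `s`
  have a1 : κ 1 r s = -1 := by
    have := κ_eq (m := 1) hs hr0 (by rw [pow_one]; exact hq)
    rw [s1] at this
    exact (mul_right_cancel₀ hq0 (by rw [← this]; ring)).symm
  have a2 : κ 1 (1 + r) s = -1 := by
    have := κ_eq (m := 1) hs hr1 (by rw [pow_one]; exact hγ)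
    rw [s2] at this
    exact (mul_right_cancel₀ hγ0 (by rw [← this]; ring)).symm
  have hs2 : s ^ 2 ∈ St k γ := by
    refine ⟨(Γ k Ω).pow_mem hs 2, ?_⟩
    rw [pow_two, AlgEquiv.mul_apply, s2, map_neg, s2, neg_neg]
  have b1 : κ 1 γ (s ^ 2) = -1 := by
    rw [← κ_sq (m := 1) hs2.1 hγ0, hγ, κ_npow (St_one_add hsr) hr1, κ_succ_sq hs hr1, a2]
  have b2 : κ 1 (1 + γ) (s ^ 2) = -1 := by
    have hc := κ_conj_Γ (m := 2) (s := s) hs (St_one_sub hs2) hγ2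
    rw [map_sub, map_one, s2, sub_neg_eq_add] at hc
    have hcs : s * s ^ 2 * s⁻¹ = s ^ 2 := by group
    rw [hcs] at hc
    have hp := κ_mulv (m := 2) hs2.1 hγ1 hγ2
    rw [hγm, κ_neg hs2.1 hr0, κ_npow hsr hr0, κ_succ_sq hs hr0, a1, ← hc] at hp
    rw [← κ_succ_sq hs2.1 hγ1, hp]; ring
  -- symbols of `τ`
  have hτγ : τ ∈ St k γ := ⟨hτ, t1⟩
  have he0 : y + 1 + r ≠ 0 := by rw [← hw]; exact pow_ne_zero 2 hw0
  have c1 : κ 1 (y + 1 + r) τ = -1 := by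
    have := κ_eq (m := 1) hτ he0 (by rw [pow_one]; exact hw)
    rw [t2] at this
    exact (mul_right_cancel₀ hw0 (by rw [← this]; ring)).symm
  have ident : (γ * (1 + γ)) * ((r ^ 2) * (y + 1 + r)) = (y + γ + γ ^ 2) ^ 2 := by
    rw [hr]
    have hy2 : y ^ 2 = γ ^ 2 * (γ ^ 2 - 1) := by
      rw [hγ, hy]; linear_combination -hr
    have hy' : y ^ 2 = γ ^ 2 * (γ ^ 2 - 1) := hy2
    have hr' : y + 1 + r = y + γ ^ 2 := by rw [hγ]; ring
    rw [hr']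
    linear_combination -hy'
  have hsum0 : y + γ + γ ^ 2 ≠ 0 := by
    intro h
    rw [h] at ident
    have : (γ * (1 + γ)) * ((r ^ 2) * (y + 1 + r)) ≠ 0 :=
      mul_ne_zero (mul_ne_zero hγ0 hγ1) (mul_ne_zero (pow_ne_zero 2 hr0) he0)
    apply this
    rw [ident]; ring
  have c2 : κ 1 γ τ * κ 1 (1 + γ) τ = -1 := by
    have e1 : κ 1 ((y + γ + γ ^ 2) ^ 2) τ = 1 := by
      rw [κ_sq hτ hsum0]
      exact κ_zero ⟨hτ, by rw [map_add, map_add, map_pow, ty, t1]⟩ hsum0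
    have e2 : κ 1 (r ^ 2) τ = 1 := by
      rw [κ_sq hτ hr0]
      exact κ_zero ⟨hτ, tr⟩ hr0
    rw [← ident, κ_mulv hτ (mul_ne_zero hγ0 hγ1) (mul_ne_zero (pow_ne_zero 2 hr0) he0),
      κ_mulv hτ hγ0 hγ1, κ_mulv hτ (pow_ne_zero 2 hr0) he0, e2, c1] at e1
    linear_combination -e1
  have hsτ : s ^ 2 * τ ∈ St k γ := (St k γ).mul_mem hs2 hτγ
  have d1 : κ 1 γ (s ^ 2 * τ) = -κ 1 γ τ := by rw [κ_mul hs2 hτγ hγ0, b1]; ring
  have d2 : κ 1 (1 + γ) (s ^ 2 * τ) = -κ 1 (1 + γ) τ := by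
    rw [κ_mul (St_one_add hs2) (St_one_add hτγ) hγ1, b2]; ring
  rcases κ_one_cases t1 hγ0 with h | h
  · have h' : κ 1 (1 + γ) τ = -1 := by rw [h] at c2; linear_combination c2
    exact ⟨⟨_, hsτ, by rw [d1, h], by rw [d2, h']; ring⟩, ⟨τ, hτγ, h, h'⟩⟩
  · have h' : κ 1 (1 + γ) τ = 1 := by rw [h] at c2; linear_combination -c2
    exact ⟨⟨τ, hτγ, h, h'⟩, ⟨_, hsτ, by rw [d1, h]; ring, by rw [d2, h']⟩⟩

section

variable [Algebra.IsAlgebraic ℚ Ω] [CharZero Ω]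

omit [Algebra ℚ Ω] [Algebra.IsAlgebraic ℚ Ω] in
lemma exists_sq_real {φ : Ω →+* ℂ} {a : Ω} {t : ℝ} (h : φ a = (t : ℂ)) (ht : 0 ≤ t) :
    ∃ z : Ω, z ^ 2 = a ∧ φ z = (Real.sqrt t : ℂ) := by
  obtain ⟨z, hz⟩ := IsAlgClosed.exists_pow_nat_eq a (n := 2) (by norm_num)
  have h1 : (φ z) ^ 2 = ((Real.sqrt t : ℝ) : ℂ) ^ 2 := by
    rw [← map_pow, hz, h, ← Complex.ofReal_pow, Real.sq_sqrt ht]
  have h2 : (φ z - ((Real.sqrt t : ℝ) : ℂ)) * (φ z + ((Real.sqrt t : ℝ) : ℂ)) = 0 := by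
    linear_combination h1
  rcases mul_eq_zero.mp h2 with h3 | h3
  · exact ⟨z, hz, by linear_combination h3⟩
  · refine ⟨-z, by rw [neg_sq, hz], ?_⟩
    rw [map_neg]
    linear_combination -h3

variable (Ω) in
omit [CharZero Ω] in
/-- an automorphism moving `√2` -/
lemma exists_move {r : Ω} (hr : r ^ 2 = 2) : ∃ ρ : Aut ℚ Ω, ρ r = -r := by
  have hcl : IsAlgClosure ℚ Ω := ⟨inferInstance, inferInstance⟩
  have hn : IsGalois ℚ Ω := IsAlgClosure.isGalois ℚ Ω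
  by_contra hcon
  push Not at hcon
  have hfix : ∀ ρ : Aut ℚ Ω, ρ r = r := by
    intro ρ
    have h1 : (ρ r - r) * (ρ r + r) = 0 := by
      have : (ρ r) ^ 2 = r ^ 2 := by rw [← map_pow, hr, map_ofNat ρ 2]
      linear_combination this
    rcases mul_eq_zero.mp h1 with h | h
    · linear_combination h
    · exact absurd (by linear_combination h) (hcon ρ)
  have hbot := (InfiniteGalois.mem_bot_iff_fixed (k := ℚ) (K := Ω) r).mpr hfix
  rw [IntermediateField.mem_bot] at hbot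
  obtain ⟨a, ha⟩ := hbot
  have h2 : a ^ 2 = 2 := by
    have : algebraMap ℚ Ω (a ^ 2) = algebraMap ℚ Ω 2 := by
      rw [map_pow, ha, hr, map_ofNat]
    exact (algebraMap ℚ Ω).injective this
  have hirr := irrational_sqrt_two
  apply hirr
  refine ⟨|a|, ?_⟩
  have : ((|a| : ℚ) : ℝ) = Real.sqrt 2 := by
    have ha0 : a ≠ 0 := by rintro rfl; norm_num at h2
    have hpos : (0 : ℝ) < ((|a| : ℚ) : ℝ) := by exact_mod_cast abs_pos.mpr ha0
    rw [eq_comm, Real.sqrt_eq_iff_mul_self_eq_of_pos hpos, ← Rat.cast_mul, abs_mul_abs_self,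
      ← pow_two, h2]
    norm_num
  exact this

omit [IsAlgClosed Ω] [Algebra.IsAlgebraic ℚ Ω] [CharZero Ω] in
lemma cube_move {r y₁ y₃ : Ω} {ρ : Aut ℚ Ω} (h13 : y₁ * y₃ = r) (hy3 : y₃ ≠ 0) {e : Ω}
    (he : e = 1 ∨ e = -1) (h1 : ρ r = -r) (h2 : ρ y₁ = e * y₃) :
    (ρ ^ 3) r = -r ∧ (ρ ^ 3) y₁ = -e * y₃ := by
  have hρe : ρ e = e := by rcases he with rfl | rfl <;> simp
  have he2 : e * e = 1 := by rcases he with rfl | rfl <;> ring
  have he0 : e ≠ 0 := by rintro rfl; norm_num at he2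
  have h3 : ρ y₃ = -e * y₁ := by
    have h4 : ρ y₁ * ρ y₃ = -(y₁ * y₃) := by rw [← map_mul, h13, h1]
    rw [h2] at h4
    apply mul_left_cancel₀ (mul_ne_zero he0 hy3)
    rw [h4]
    linear_combination (-(y₁ * y₃)) * he2 * (-1)
  have hr3 : (ρ ^ 3) r = ρ (ρ (ρ r)) := rfl
  have hy3' : (ρ ^ 3) y₁ = ρ (ρ (ρ y₁)) := rfl
  constructor
  · rw [hr3, h1, map_neg, h1, neg_neg, h1]
  · rw [hy3', h2, map_mul, h3, hρe, map_mul, map_mul, map_neg, hρe, h2]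
    linear_combination (-e * y₃) * he2

/-- the vertices of level two above `1` are good -/
theorem good_level2 {γ : Ω} (hγ : f^[2] γ = 1) : Good ℚ γ := by
  obtain ⟨φ, c, hc⟩ := exists_conj Ω
  have hs2 : (0 : ℝ) < Real.sqrt 2 := Real.sqrt_pos.mpr (by norm_num)
  have hs2' : Real.sqrt 2 ^ 2 = 2 := Real.sq_sqrt (by norm_num)
  have hlt : Real.sqrt 2 < 2 := by nlinarith
  have hgt : 1 < Real.sqrt 2 := by nlinarith
  obtain ⟨r, hr, φr⟩ := exists_sq_real (φ := φ) (a := 2) (t := 2)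
    (by rw [map_ofNat]; push_cast; rfl) (by norm_num)
  obtain ⟨y₁, hy₁, φy₁⟩ := exists_sq_real (φ := φ) (a := 2 + r) (t := 2 + Real.sqrt 2)
    (by rw [map_add, φr, map_ofNat]; push_cast; ring) (by positivity)
  obtain ⟨y₃, hy₃, φy₃⟩ := exists_sq_real (φ := φ) (a := 2 - r) (t := 2 - Real.sqrt 2)
    (by rw [map_sub, φr, map_ofNat]; push_cast; ring) (by linarith)
  set A := Real.sqrt (2 + Real.sqrt 2) with hA
  set B := Real.sqrt (2 - Real.sqrt 2) with hB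
  have hA0 : 0 < A := Real.sqrt_pos.mpr (by positivity)
  have hB0 : 0 < B := Real.sqrt_pos.mpr (by linarith)
  have hB2 : B ^ 2 = 2 - Real.sqrt 2 := Real.sq_sqrt (by linarith)
  have hAB : A * B = Real.sqrt 2 := by
    rw [hA, hB, ← Real.sqrt_mul (by positivity)]
    congr 1
    nlinarith
  obtain ⟨w, hw, φw⟩ := exists_sq_real (φ := φ) (a := y₁ + 1 + r) (t := A + 1 + Real.sqrt 2)
    (by rw [map_add, map_add, φr, φy₁, map_one]; push_cast; ring) (by positivity)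
  obtain ⟨q, hq, -⟩ := exists_sq_real (φ := φ) (a := r) (t := Real.sqrt 2) φr hs2.le
  have h13 : y₁ * y₃ = r := by
    apply φ.injective
    rw [map_mul, φy₁, φy₃, φr, ← Complex.ofReal_mul, hAB]
  have hy30 : y₃ ≠ 0 := by
    rintro rfl
    rw [map_zero] at φy₃
    exact hB0.ne' (by exact_mod_cast φy₃.symm)
  have hw0 : w ≠ 0 := by
    rintro rfl
    rw [map_zero] at φw
    have : Real.sqrt (A + 1 + Real.sqrt 2) = 0 := by exact_mod_cast φw.symm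
    have h2 : 0 < Real.sqrt (A + 1 + Real.sqrt 2) := Real.sqrt_pos.mpr (by positivity)
    exact h2.ne' this
  obtain ⟨ρ, hρ⟩ := exists_move Ω hr
  -- the image of `y₁`
  have hρy : ∃ e : Ω, (e = 1 ∨ e = -1) ∧ ρ y₁ = e * y₃ := by
    have h1 : (ρ y₁ - y₃) * (ρ y₁ + y₃) = 0 := by
      have : (ρ y₁) ^ 2 = y₃ ^ 2 := by
        rw [← map_pow, hy₁, map_add, hρ, hy₃, map_ofNat ρ 2]; ring
      linear_combination this
    rcases mul_eq_zero.mp h1 with h | h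
    · exact ⟨1, Or.inl rfl, by linear_combination h⟩
    · exact ⟨-1, Or.inr rfl, by linear_combination h⟩
  obtain ⟨e, he, hρe⟩ := hρy
  obtain ⟨h3r, h3y⟩ := cube_move h13 hy30 he hρ hρe
  have both : ∃ ρ₁ ρ₂ : Aut ℚ Ω, ρ₁ r = -r ∧ ρ₁ y₁ = -y₃ ∧ ρ₂ r = -r ∧ ρ₂ y₁ = y₃ := by
    rcases he with rfl | rfl
    · exact ⟨ρ ^ 3, ρ, h3r, by rw [h3y]; ring, hρ, by rw [hρe]; ring⟩
    · exact ⟨ρ, ρ ^ 3, hρ, by rw [hρe]; ring, h3r, by rw [h3y]; ring⟩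
  obtain ⟨ρ₁, ρ₂, r1, r2, r3, r4⟩ := both
  -- first case
  have case1 : ∀ δ : Ω, δ ^ 2 = 1 + r → Good ℚ δ := by
    intro δ hδ
    have φδ : φ (δ ^ 2) = ((1 + Real.sqrt 2 : ℝ) : ℂ) := by
      rw [hδ, map_add, map_one, φr]; push_cast; ring
    have φq : φ (q ^ 2) = ((Real.sqrt 2 : ℝ) : ℂ) := by rw [hq, φr]
    have φw2 : φ (w ^ 2) = ((A + 1 + Real.sqrt 2 : ℝ) : ℂ) := by
      rw [hw, map_add, map_add, map_one, φr, φy₁]; push_cast; ring
    have g1q := comm_neg hc (ρ := ρ₁) hs2 φq (t' := -Real.sqrt 2) (by linarith)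
      (by rw [← map_pow, hq, r1, map_neg, φr]; push_cast; ring)
    have g1δ := comm_neg hc (ρ := ρ₁) (by positivity) φδ (t' := 1 - Real.sqrt 2) (by linarith)
      (by rw [← map_pow, hδ, map_add, map_one, r1, map_add, map_one, map_neg, φr]
          push_cast; ring)
    have g1w := comm_neg hc (ρ := ρ₁) (by positivity) φw2 (t' := -B + 1 - Real.sqrt 2)
      (by linarith)
      (by rw [← map_pow, hw]
          simp only [map_add, map_one, map_neg, r1, r2, φr, φy₃]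
          push_cast; ring)
    have g2δ := comm_neg hc (ρ := ρ₂) (by positivity) φδ (t' := 1 - Real.sqrt 2) (by linarith)
      (by rw [← map_pow, hδ, map_add, map_one, r3, map_add, map_one, map_neg, φr]
          push_cast; ring)
    have g2w := comm_pos hc (ρ := ρ₂) (by positivity) φw2 (t' := B + 1 - Real.sqrt 2)
      (by nlinarith)
      (by rw [← map_pow, hw]
          simp only [map_add, map_one, map_neg, r3, r4, φr, φy₃]
          push_cast; ring)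
    have m1 : c * ρ₁⁻¹ * c⁻¹ * ρ₁ ∈ Γ ℚ Ω := comm_mem_Γ' c ρ₁
    have m2 : c * ρ₂⁻¹ * c⁻¹ * ρ₂ ∈ Γ ℚ Ω := comm_mem_Γ' c ρ₂
    refine good_of_elements hr hy₁ hδ hw hw0 hq (s := c * ρ₁⁻¹ * c⁻¹ * ρ₁)
      (τ := (c * ρ₁⁻¹ * c⁻¹ * ρ₁) * (c * ρ₂⁻¹ * c⁻¹ * ρ₂)) m1 ((Γ ℚ Ω).mul_mem m1 m2)
      g1q g1δ ?_ ?_
    · rw [AlgEquiv.mul_apply, g2δ, map_neg, g1δ, neg_neg]
    · rw [AlgEquiv.mul_apply, g2w, g1w]
  have hγ2 : (γ ^ 2 - 1 - r) * (γ ^ 2 - 1 + r) = 0 := by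
    have : f (f γ) = 1 := hγ
    unfold f at this
    linear_combination this - hr
  rcases mul_eq_zero.mp hγ2 with h | h
  · exact case1 γ (by linear_combination h)
  · have hinv : ρ⁻¹ r = -r := by
      have : ρ (-r) = r := by rw [map_neg, hρ, neg_neg]
      calc ρ⁻¹ r = ρ⁻¹ (ρ (-r)) := by rw [this]
        _ = (ρ⁻¹ * ρ) (-r) := rfl
        _ = -r := by rw [inv_mul_cancel]; rfl
    have h1 := case1 (ρ⁻¹ γ) (by
      have : γ ^ 2 = 1 - r := by linear_combination h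
      rw [← map_pow, this, map_sub, map_one, hinv]; ring)
    have h2 := h1.conj ρ
    have h3 : ρ (ρ⁻¹ γ) = γ := by
      show (ρ * ρ⁻¹) γ = γ
      rw [mul_inv_cancel]; rfl
    rwa [h3] at h2

end

end Q280.Basilica
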