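import Pool.Agent.Q280.Basilica.Good

set_option autoImplicit false

/-!
# Complex conjugation on an algebraic closure of `ℚ`, and commutators
-/

namespace Q280.Basilica

variable {Ω : Type*} [Field Ω] [Algebra ℚ Ω] [IsAlgClosed Ω]
  [Algebra.IsAlgebraic ℚ Ω]

variable (Ω) in
lemma exists_conj : ∃ (φ : Ω →+* ℂ) (c : Aut ℚ Ω), ∀ x, φ (c x) = (starRingEnd ℂ) (φ x) := by
  let φ : Ω →ₐ[ℚ] ℂ := IsAlgClosed.lift
  let _ : Algebra Ω ℂ := φ.toRingHom.toAlgebra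
  have hst : IsScalarTower ℚ Ω ℂ := IsScalarTower.of_algebraMap_eq (fun x => (φ.commutes x).symm)
  have hcl : IsAlgClosure ℚ Ω := ⟨inferInstance, inferInstance⟩
  have hn : Normal ℚ Ω := IsAlgClosure.normal ℚ Ω
  let conjQ : ℂ ≃ₐ[ℚ] ℂ := AlgEquiv.restrictScalars ℚ Complex.conjAe
  refine ⟨φ.toRingHom, conjQ.restrictNormal Ω, fun x => ?_⟩
  have := AlgEquiv.restrictNormal_commutes conjQ Ω x
  exact this

lemma comm_mem_Γ {k Ω : Type*} [Field k] [Field Ω] [Algebra k Ω] (σ τ : Aut k Ω) :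
    σ * τ * σ⁻¹ * τ⁻¹ ∈ Γ k Ω := by
  intro j ζ hζ
  have hne : NeZero (2 ^ j : ℕ) := ⟨(pow_pos two_pos j).ne'⟩
  set z : rootsOfUnity (2 ^ j) Ω := rootsOfUnity.mkOfPowEq ζ hζ with hz
  have hzζ : ((z : Ωˣ) : Ω) = ζ := by simp [hz]
  obtain ⟨a, ha⟩ := map_rootsOfUnity_eq_pow_self (σ⁻¹ : Aut k Ω) z
  obtain ⟨b, hb⟩ := map_rootsOfUnity_eq_pow_self (τ⁻¹ : Aut k Ω) z
  rw [hzζ] at ha hb
  have h1 : σ⁻¹ (τ⁻¹ ζ) = τ⁻¹ (σ⁻¹ ζ) := by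
    rw [hb, map_pow, ha, map_pow, hb, ← pow_mul, ← pow_mul, mul_comm]
  show σ (τ (σ⁻¹ (τ⁻¹ ζ))) = ζ
  rw [h1]
  have h2 : τ (τ⁻¹ (σ⁻¹ ζ)) = σ⁻¹ ζ := by
    show (τ * τ⁻¹) (σ⁻¹ ζ) = _
    rw [mul_inv_cancel]; rfl
  rw [h2]
  show (σ * σ⁻¹) ζ = ζ
  rw [mul_inv_cancel]; rfl

section

variable {φ : Ω →+* ℂ} {c : Aut ℚ Ω} (hc : ∀ x, φ (c x) = (starRingEnd ℂ) (φ x))

include hc

omit [IsAlgClosed Ω] [Algebra.IsAlgebraic ℚ Ω] in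
lemma conj_pos {z : Ω} {t : ℝ} (ht : 0 < t) (h : φ (z ^ 2) = (t : ℂ)) : c z = z := by
  apply φ.injective
  rw [hc]
  rw [map_pow] at h
  have hre := congrArg Complex.re h
  have him := congrArg Complex.im h
  simp only [pow_two, Complex.mul_re, Complex.mul_im, Complex.ofReal_re, Complex.ofReal_im]
    at hre him
  have h0 : (φ z).im = 0 := by
    have h1 : (φ z).re * (φ z).im = 0 := by linarith
    rcases mul_eq_zero.mp h1 with h2 | h2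
    · rw [h2] at hre
      nlinarith [mul_self_nonneg (φ z).im]
    · exact h2
  rw [Complex.conj_eq_iff_im]
  exact h0

omit [IsAlgClosed Ω] [Algebra.IsAlgebraic ℚ Ω] in
lemma conj_neg {z : Ω} {t : ℝ} (ht : t < 0) (h : φ (z ^ 2) = (t : ℂ)) : c z = -z := by
  apply φ.injective
  rw [hc, map_neg]
  rw [map_pow] at h
  have hre := congrArg Complex.re h
  have him := congrArg Complex.im h
  simp only [pow_two, Complex.mul_re, Complex.mul_im, Complex.ofReal_re, Complex.ofReal_im]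
    at hre him
  have h0 : (φ z).re = 0 := by
    have h1 : (φ z).re * (φ z).im = 0 := by linarith
    rcases mul_eq_zero.mp h1 with h2 | h2
    · exact h2
    · rw [h2] at hre
      nlinarith [mul_self_nonneg (φ z).re]
  apply Complex.ext
  · simp [h0]
  · simp

omit [IsAlgClosed Ω] [Algebra.IsAlgebraic ℚ Ω] in
/-- the commutator `c ρ⁻¹ c⁻¹ ρ` on a real square root -/
lemma comm_pos {ρ : Aut ℚ Ω} {z : Ω} {t t' : ℝ} (ht : 0 < t) (h : φ (z ^ 2) = (t : ℂ))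
    (ht' : 0 < t') (h' : φ ((ρ z) ^ 2) = (t' : ℂ)) : (c * ρ⁻¹ * c⁻¹ * ρ) z = z := by
  show c (ρ⁻¹ (c⁻¹ (ρ z))) = z
  rw [inv_fix c (conj_pos hc ht' h')]
  have : ρ⁻¹ (ρ z) = z := by
    show (ρ⁻¹ * ρ) z = z
    rw [inv_mul_cancel]; rfl
  rw [this, conj_pos hc ht h]

omit [IsAlgClosed Ω] [Algebra.IsAlgebraic ℚ Ω] in
lemma comm_neg {ρ : Aut ℚ Ω} {z : Ω} {t t' : ℝ} (ht : 0 < t) (h : φ (z ^ 2) = (t : ℂ))
    (ht' : t' < 0) (h' : φ ((ρ z) ^ 2) = (t' : ℂ)) : (c * ρ⁻¹ * c⁻¹ * ρ) z = -z := by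
  show c (ρ⁻¹ (c⁻¹ (ρ z))) = -z
  have h1 : c⁻¹ (ρ z) = -(ρ z) := by
    have h2 : c (-(ρ z)) = ρ z := by rw [map_neg, conj_neg hc ht' h', neg_neg]
    calc c⁻¹ (ρ z) = c⁻¹ (c (-(ρ z))) := by rw [h2]
      _ = (c⁻¹ * c) (-(ρ z)) := rfl
      _ = -(ρ z) := by rw [inv_mul_cancel]; rfl
  rw [h1, map_neg]
  have : ρ⁻¹ (ρ z) = z := by
    show (ρ⁻¹ * ρ) z = z
    rw [inv_mul_cancel]; rfl
  rw [this, map_neg, conj_pos hc ht h]

end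

lemma comm_mem_Γ' {k Ω : Type*} [Field k] [Field Ω] [Algebra k Ω] (σ τ : Aut k Ω) :
    σ * τ⁻¹ * σ⁻¹ * τ ∈ Γ k Ω := by
  have := comm_mem_Γ σ τ⁻¹
  rwa [inv_inv] at this

end Q280.Basilica
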