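import Mathlib

set_option autoImplicit false

/-!
# The extinction lemma

A counting process on a finite group whose value has mean one, which is absorbed at zero, and which
drops with a conditional probability bounded below in terms of its present value, is zero with
probability tending to one.
-/

namespace Q280.Basilica.Ext

open Finset

variable {A : Type*} [Group A] [Fintype A]

omit [Fintype A] in
lemma dc (S K T : Finset A) (P : A → A → Prop) [∀ s, DecidablePred (P s)]
    (h : ∀ s ∈ S, ∀ k ∈ K, P s k → s * k ∈ T) :
    ∑ s ∈ S, (K.filter (P s)).card ≤ K.card * T.card := by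
  classical
  have e1 : ∑ s ∈ S, (K.filter (P s)).card = ∑ k ∈ K, (S.filter (fun s => P s k)).card := by
    simp only [card_filter]
    exact sum_comm
  rw [e1, ← smul_eq_mul]
  apply sum_le_card_nsmul
  intro k hk
  apply card_le_card_of_injOn (fun s => s * k)
  · intro s hs
    simp only [coe_filter, Set.mem_ofPred_eq] at hs
    exact h s hs.1 k hk hs.2
  · intro s _ t _ hst
    exact mul_right_cancel hst

/-- the constants of the extinction lemma -/
def b : ℕ → ℕ
  | 0 => 1
  | u + 1 => 2 ^ (u + 1) * b u

lemma b_pos (u : ℕ) : 0 < b u := by
  induction u with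
  | zero => simp [b]
  | succ u ih => simp only [b]; positivity

open Classical in
/-- elements of a subgroup as a finset -/
noncomputable def el (V : Subgroup A) : Finset A := univ.filter (fun h => h ∈ V)

lemma mem_el (V : Subgroup A) (h : A) : h ∈ el V ↔ h ∈ V := by simp [el]

lemma el_pos (V : Subgroup A) : 0 < (el V).card :=
  card_pos.mpr ⟨1, (mem_el V 1).mpr V.one_mem⟩

section

variable (X : ℕ → A → ℕ) (V : ℕ → Subgroup A) (M : ℕ)

open Classical in
lemma D (hV : ∀ n < M, V (n + 1) ≤ V n)
    (h2 : ∀ n < M, ∀ g, X n g = 0 → X (n + 1) g = 0)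
    (h3 : ∀ n ≤ M, ∀ g, ∀ h ∈ V n, X n (g * h) = X n g)
    (h4 : ∀ n < M, ∀ g, X n g ≠ 0 →
      (el (V n)).card ≤ 2 ^ (X n g) * ((el (V n)).filter (fun h => X (n + 1) (g * h) < X n g)).card)
    (u : ℕ) : ∀ n g, n + u ≤ M → X n g ≤ u →
      (el (V n)).card ≤ b u * ((el (V n)).filter (fun h => X (n + u) (g * h) = 0)).card := by
  induction u with
  | zero =>
    intro n g hn hX
    have h0 : X n g = 0 := by omega
    have : (el (V n)).filter (fun h => X (n + 0) (g * h) = 0) = el (V n) := by
      apply filter_true_of_mem
      intro h hh
      rw [mem_el] at hh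
      simpa using (h3 n (by omega) g h hh).trans h0
    rw [this]
    simp [b]
  | succ u ih =>
    intro n g hn hX
    by_cases h0 : X n g = 0
    · have : (el (V n)).filter (fun h => X (n + (u + 1)) (g * h) = 0) = el (V n) := by
        apply filter_true_of_mem
        intro h hh
        rw [mem_el] at hh
        have e0 : X n (g * h) = 0 := (h3 n (by omega) g h hh).trans h0
        have : ∀ j, n + j ≤ M → X (n + j) (g * h) = 0 := by
          intro j
          induction j with
          | zero => intro _; simpa using e0
          | succ j ihj =>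
            intro hj
            exact h2 (n + j) (by omega) _ (ihj (by omega))
        exact this (u + 1) hn
      rw [this]
      exact Nat.le_mul_of_pos_left _ (b_pos _)
    · set S := (el (V n)).filter (fun h => X (n + 1) (g * h) < X n g) with hS
      set T := (el (V n)).filter (fun h => X (n + (u + 1)) (g * h) = 0) with hT
      have a1 : (el (V n)).card ≤ 2 ^ (u + 1) * S.card :=
        (h4 n (by omega) g h0).trans
          (Nat.mul_le_mul_right _ (Nat.pow_le_pow_right (by norm_num) hX))
      have a2 : ∀ s ∈ S, (el (V (n + 1))).card ≤
          b u * ((el (V (n + 1))).filter (fun k => X (n + 1 + u) (g * s * k) = 0)).card := by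
        intro s hs
        rw [hS, mem_filter] at hs
        exact ih (n + 1) (g * s) (by omega) (by omega)
      have a3 : ∑ s ∈ S, ((el (V (n + 1))).filter
          (fun k => X (n + 1 + u) (g * s * k) = 0)).card ≤ (el (V (n + 1))).card * T.card := by
        apply dc S _ T (fun s k => X (n + 1 + u) (g * s * k) = 0)
        intro s hs k hk hsk
        rw [hS, mem_filter, mem_el] at hs
        rw [mem_el] at hk
        rw [hT, mem_filter, mem_el]
        refine ⟨(V n).mul_mem hs.1 (hV n (by omega) hk), ?_⟩
        rw [← mul_assoc]
        have : n + (u + 1) = n + 1 + u := by omega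
        rw [this]
        exact hsk
      have a4 : S.card * (el (V (n + 1))).card ≤ b u * ((el (V (n + 1))).card * T.card) := by
        calc S.card * (el (V (n + 1))).card = ∑ s ∈ S, (el (V (n + 1))).card := by
              rw [sum_const, smul_eq_mul]
          _ ≤ ∑ s ∈ S, b u * ((el (V (n + 1))).filter
              (fun k => X (n + 1 + u) (g * s * k) = 0)).card := sum_le_sum a2
          _ = b u * ∑ s ∈ S, ((el (V (n + 1))).filter
              (fun k => X (n + 1 + u) (g * s * k) = 0)).card := by rw [mul_sum]
          _ ≤ _ := Nat.mul_le_mul_left _ a3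
      have a5 : S.card ≤ b u * T.card := by
        have hp := el_pos (V (n + 1))
        have : (el (V (n + 1))).card * S.card ≤ (el (V (n + 1))).card * (b u * T.card) := by
          calc _ = S.card * (el (V (n + 1))).card := by ring
            _ ≤ _ := a4
            _ = _ := by ring
        exact Nat.le_of_mul_le_mul_left this hp
      calc (el (V n)).card ≤ 2 ^ (u + 1) * S.card := a1
        _ ≤ 2 ^ (u + 1) * (b u * T.card) := Nat.mul_le_mul_left _ a5
        _ = b (u + 1) * T.card := by rw [b]; ring

open Classical in
/-- number of elements with nonzero value -/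
noncomputable def Q (n : ℕ) : ℕ := ((univ : Finset A).filter (fun g => X n g ≠ 0)).card

open Classical in
theorem extinction (hV : ∀ n < M, V (n + 1) ≤ V n)
    (h1 : ∀ n ≤ M, ∑ g, X n g = Fintype.card A)
    (h2 : ∀ n < M, ∀ g, X n g = 0 → X (n + 1) g = 0)
    (h3 : ∀ n ≤ M, ∀ g, ∀ h ∈ V n, X n (g * h) = X n g)
    (h4 : ∀ n < M, ∀ g, X n g ≠ 0 →
      (el (V n)).card ≤ 2 ^ (X n g) * ((el (V n)).filter (fun h => X (n + 1) (g * h) < X n g)).card)
    (C : ℕ) (hM : ((C + 1) * b C + 1) * C ≤ M) :
    (C + 1) * Q X M ≤ 2 * Fintype.card A := by
  by_contra hcon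
  push Not at hcon
  have hA : 0 < Fintype.card A := Fintype.card_pos
  -- monotonicity
  have mono0 : ∀ n j, n + j ≤ M → ∀ g, X n g = 0 → X (n + j) g = 0 := by
    intro n j
    induction j with
    | zero => intro _ g hg; simpa using hg
    | succ j ihj =>
      intro hj g hg
      exact h2 (n + j) (by omega) _ (ihj (by omega) g hg)
  have mono : ∀ n j, n + j ≤ M → Q X (n + j) ≤ Q X n := by
    intro n j hj
    apply card_le_card
    intro g hg
    simp only [mem_filter, mem_univ, true_and] at hg ⊢
    intro h0
    exact hg (mono0 n j hj g h0)
  -- one round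
  have round : ∀ n, n + C ≤ M →
      Fintype.card A + Q X (n + C) * ((C + 1) * b C) ≤ Q X n * ((C + 1) * b C) := by
    intro n hn
    set B := (univ : Finset A).filter (fun g => X n g ≠ 0 ∧ X n g ≤ C) with hB
    set T := (univ : Finset A).filter (fun g => X n g ≠ 0 ∧ X (n + C) g = 0) with hT
    have c1 : B.card ≤ b C * T.card := by
      have a2 : ∀ g ∈ B, (el (V n)).card ≤
          b C * ((el (V n)).filter (fun k => X (n + C) (g * k) = 0)).card := by
        intro g hg
        rw [hB, mem_filter] at hg
        exact D X V M hV h2 h3 h4 C n g hn hg.2.2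
      have a3 : ∑ g ∈ B, ((el (V n)).filter
          (fun k => X (n + C) (g * k) = 0)).card ≤ (el (V n)).card * T.card := by
        apply dc B _ T (fun g k => X (n + C) (g * k) = 0)
        intro g hg k hk hgk
        rw [hB, mem_filter] at hg
        rw [mem_el] at hk
        rw [hT, mem_filter]
        refine ⟨mem_univ _, ?_, hgk⟩
        rw [h3 n (by omega) g k hk]
        exact hg.2.1
      have a4 : B.card * (el (V n)).card ≤ b C * ((el (V n)).card * T.card) := by
        calc B.card * (el (V n)).card = ∑ g ∈ B, (el (V n)).card := by
              rw [sum_const, smul_eq_mul]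
          _ ≤ ∑ g ∈ B, b C * ((el (V n)).filter
              (fun k => X (n + C) (g * k) = 0)).card := sum_le_sum a2
          _ = b C * ∑ g ∈ B, ((el (V n)).filter
              (fun k => X (n + C) (g * k) = 0)).card := by rw [mul_sum]
          _ ≤ _ := Nat.mul_le_mul_left _ a3
      have hp := el_pos (V n)
      have : (el (V n)).card * B.card ≤ (el (V n)).card * (b C * T.card) := by
        calc _ = B.card * (el (V n)).card := by ring
          _ ≤ _ := a4
          _ = _ := by ring
      exact Nat.le_of_mul_le_mul_left this hp
    have c2 : Q X (n + C) + T.card ≤ Q X n := by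
      have hd : Disjoint ((univ : Finset A).filter (fun g => X (n + C) g ≠ 0)) T := by
        rw [disjoint_left]
        intro g hg hgT
        rw [mem_filter] at hg
        rw [hT, mem_filter] at hgT
        exact hg.2 hgT.2.2
      unfold Q
      rw [← card_union_of_disjoint hd]
      apply card_le_card
      intro g hg
      rw [mem_union, mem_filter, hT, mem_filter] at hg
      rw [mem_filter]
      refine ⟨mem_univ _, ?_⟩
      rcases hg with hg | hg
      · intro h0
        exact hg.2 (mono0 n C hn g h0)
      · exact hg.2.1
    have c3 : (C + 1) * Q X n ≤ (C + 1) * B.card + Fintype.card A := by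
      set L := (univ : Finset A).filter (fun g => C + 1 ≤ X n g) with hL
      have e1 : Q X n ≤ B.card + L.card := by
        rw [← card_union_add_card_inter]
        refine le_trans ?_ (Nat.le_add_right _ _)
        apply card_le_card
        intro g hg
        rw [mem_filter] at hg
        rw [mem_union, hB, hL, mem_filter, mem_filter]
        by_cases hc : X n g ≤ C
        · left; exact ⟨mem_univ _, hg.2, hc⟩
        · right; exact ⟨mem_univ _, by omega⟩
      have e2 : (C + 1) * L.card ≤ Fintype.card A := by
        rw [← h1 n (by omega)]
        calc (C + 1) * L.card = ∑ g ∈ L, (C + 1) := by rw [sum_const, smul_eq_mul, mul_comm]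
          _ ≤ ∑ g ∈ L, X n g := by
              apply sum_le_sum
              intro g hg
              rw [hL, mem_filter] at hg
              exact hg.2
          _ ≤ ∑ g, X n g := sum_le_sum_of_subset (subset_univ _)
      calc (C + 1) * Q X n ≤ (C + 1) * (B.card + L.card) := Nat.mul_le_mul_left _ e1
        _ = (C + 1) * B.card + (C + 1) * L.card := by ring
        _ ≤ _ := Nat.add_le_add_left e2 _
    have c4 : Q X M ≤ Q X n := by
      have := mono n (M - n) (by omega)
      rwa [show n + (M - n) = M by omega] at this
    have c5 : Fintype.card A ≤ (C + 1) * B.card := by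
      have : (C + 1) * Q X M ≤ (C + 1) * Q X n := Nat.mul_le_mul_left _ c4
      omega
    calc Fintype.card A + Q X (n + C) * ((C + 1) * b C)
        ≤ (C + 1) * B.card + Q X (n + C) * ((C + 1) * b C) := Nat.add_le_add_right c5 _
      _ ≤ (C + 1) * (b C * T.card) + Q X (n + C) * ((C + 1) * b C) :=
          Nat.add_le_add_right (Nat.mul_le_mul_left _ c1) _
      _ = (Q X (n + C) + T.card) * ((C + 1) * b C) := by ring
      _ ≤ _ := Nat.mul_le_mul_right _ c2
  have key : ∀ k, k * C ≤ M →
      k * Fintype.card A + Q X (k * C) * ((C + 1) * b C) ≤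
        Fintype.card A * ((C + 1) * b C) := by
    intro k
    induction k with
    | zero =>
      intro _
      have : Q X (0 * C) ≤ Fintype.card A := by
        unfold Q
        exact (card_le_univ _)
      calc 0 * Fintype.card A + Q X (0 * C) * ((C + 1) * b C)
          = Q X (0 * C) * ((C + 1) * b C) := by ring
        _ ≤ _ := Nat.mul_le_mul_right _ this
    | succ k ih =>
      intro hk
      have hk' : k * C + C ≤ M := by
        calc k * C + C = (k + 1) * C := by ring
          _ ≤ M := hk
      have i1 := ih (by omega)
      have i2 := round (k * C) hk'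
      rw [show (k + 1) * C = k * C + C by ring]
      calc (k + 1) * Fintype.card A + Q X (k * C + C) * ((C + 1) * b C)
          = k * Fintype.card A + (Fintype.card A + Q X (k * C + C) * ((C + 1) * b C)) := by ring
        _ ≤ k * Fintype.card A + Q X (k * C) * ((C + 1) * b C) := Nat.add_le_add_left i2 _
        _ ≤ _ := i1
  have := key ((C + 1) * b C + 1) hM
  have h5 : ((C + 1) * b C + 1) * Fintype.card A ≤ Fintype.card A * ((C + 1) * b C) :=
    (Nat.le_add_right _ _).trans this
  have h6 : ((C + 1) * b C + 1) * Fintype.card A =
      Fintype.card A * ((C + 1) * b C) + Fintype.card A := by ring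
  omega

end

end Q280.Basilica.Ext
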