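import Pool.Agent.Q280.Basilica.Tree
import Pool.Agent.Q280.Basilica.Ext

set_option autoImplicit false

/-!
# Counting in a finite Galois group
-/

namespace Q280.Basilica.Count

open Finset Q280.Basilica

variable {k K : Type*} [Field k] [Field K] [Algebra k K]

lemma fib (b : K) : {x : K | f x = b}.Finite := by
  by_cases h : ∃ u : K, f u = b
  · obtain ⟨u, hu⟩ := h
    refine (Set.toFinite {u, -u}).subset ?_
    intro x hx
    have hx' : f x = b := hx
    have h4 : (x - u) * (x + u) = 0 := by
      unfold f at hx' hu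
      linear_combination hx' - hu
    rcases mul_eq_zero.mp h4 with h5 | h5
    · left; linear_combination h5
    · right
      show x = -u
      linear_combination h5
  · convert Set.finite_empty (α := K)
    ext x
    simp only [Set.mem_ofPred_eq, Set.mem_empty_iff_false, iff_false]
    exact fun hx => h ⟨x, hx⟩

lemma fin_level (n : ℕ) (v : K) : {x : K | f^[n] x = v}.Finite := by
  induction n with
  | zero =>
    simp
  | succ n ih =>
    have : {x : K | f^[n + 1] x = v} = f ⁻¹' {x : K | f^[n] x = v} := by
      ext x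
      simp only [Set.mem_ofPred_eq, Set.mem_preimage, Function.iterate_succ_apply]
    rw [this]
    apply Set.Finite.preimage' ih
    intro b _
    exact fib b

/-- the vertices of level `n` -/
noncomputable def lev (n : ℕ) (v : K) : Finset K := (fin_level n v).toFinset

lemma mem_lev {n : ℕ} {v x : K} : x ∈ lev n v ↔ f^[n] x = v := by
  unfold lev
  rw [Set.Finite.mem_toFinset, Set.mem_ofPred_eq]

open Classical in
/-- number of fixed vertices -/
noncomputable def fx (n : ℕ) (v : K) (a : Aut k K) : ℕ :=
  ((lev n v).filter (fun x => a x = x)).card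

variable (k) in
/-- the stabilizer -/
def Sg (v : K) : Subgroup (Aut k K) where
  carrier := {a | a v = v}
  mul_mem' := by
    intro a b ha hb
    show a (b v) = v
    rw [hb, ha]
  one_mem' := rfl
  inv_mem' := by
    intro a ha
    exact inv_fix a ha

variable (k) in
/-- elements fixing level `n` -/
def Vn (n : ℕ) (v : K) : Subgroup (Sg k v) where
  carrier := {a | ∀ x : K, f^[n] x = v → (a : Aut k K) x = x}
  mul_mem' := by
    intro a b ha hb x hx
    show (a : Aut k K) ((b : Aut k K) x) = x
    rw [hb x hx, ha x hx]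
  one_mem' := fun _ _ => rfl
  inv_mem' := by
    intro a ha x hx
    exact inv_fix (a : Aut k K) (ha x hx)

/-- elements fixing level `n` and the fixed part of level `n + 1` of `a` -/
def Wn (n : ℕ) (v : K) (a : Sg k v) : Subgroup (Sg k v) where
  carrier := {b | b ∈ Vn k n v ∧
    ∀ x : K, f^[n + 1] x = v → (a : Aut k K) (f x) = f x → (b : Aut k K) x = x}
  mul_mem' := by
    intro b c hb hc
    refine ⟨(Vn k n v).mul_mem hb.1 hc.1, fun x hx hax => ?_⟩
    show (b : Aut k K) ((c : Aut k K) x) = x
    rw [hc.2 x hx hax, hb.2 x hx hax]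
  one_mem' := ⟨(Vn k n v).one_mem, fun _ _ _ => rfl⟩
  inv_mem' := by
    intro b hb
    exact ⟨(Vn k n v).inv_mem hb.1, fun x hx hax => inv_fix (b : Aut k K) (hb.2 x hx hax)⟩

variable [Fintype (Aut k K)]

open Classical in
theorem count (γ : K) (M C : ℕ)
    (hsq : ∀ n < M, ∀ y : K, f^[n] y = γ → ∃ θ : K, θ ^ 2 = 1 + y)
    (htr : ∀ n ≤ M, ∀ x y : K, f^[n] x = γ → f^[n] y = γ → ∃ a : Aut k K, a γ = γ ∧ a x = y)
    (hkey : ∀ n < M, ∀ a : Aut k K, a γ = γ → fx n γ a ≠ 0 →
      ∃ g : Aut k K, g γ = γ ∧ (∀ x, f^[n] x = γ → g x = x) ∧ fx (n + 1) γ (a * g) < fx n γ a)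
    (hM : ((C + 1) * Ext.b C + 1) * C ≤ M) :
    (C + 1) * ((univ : Finset (Aut k K)).filter
      (fun a => a γ = γ ∧ ∃ x, f^[M] x = γ ∧ a x = x)).card ≤ 2 * Fintype.card (Aut k K) := by
  have hfin : Fintype (Sg k γ) := Fintype.ofFinite _
  -- nonempty levels
  have hne : ∀ n ≤ M, ∃ x : K, f^[n] x = γ := by
    intro n
    induction n with
    | zero => intro _; exact ⟨γ, rfl⟩
    | succ n ih =>
      intro hn
      obtain ⟨y, hy⟩ := ih (by omega)
      obtain ⟨θ, hθ⟩ := hsq n (by omega) y hy
      refine ⟨θ, ?_⟩
      have : f θ = y := by unfold f; rw [hθ]; ring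
      rw [Function.iterate_succ_apply, this, hy]
  set X : ℕ → Sg k γ → ℕ := fun n a => fx n γ (a : Aut k K) with hX
  have h1 : ∀ n ≤ M, ∑ a, X n a = Fintype.card (Sg k γ) := by
    intro n hn
    obtain ⟨x₀, hx₀⟩ := hne n hn
    have e1 : ∑ a : Sg k γ, X n a =
        ∑ x ∈ lev n γ, ((univ : Finset (Sg k γ)).filter (fun a : Sg k γ => (a : Aut k K) x = x)).card := by
      simp only [hX, fx, card_filter]
      rw [sum_comm]
    have e2 : ∀ x ∈ lev n γ,
        ((univ : Finset (Sg k γ)).filter (fun a : Sg k γ => (a : Aut k K) x = x)).card =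
        ((univ : Finset (Sg k γ)).filter (fun a : Sg k γ => (a : Aut k K) x₀ = x)).card := by
      intro x hx
      rw [mem_lev] at hx
      obtain ⟨b, hb1, hb2⟩ := htr n hn x₀ x hx₀ hx
      set c : Sg k γ := ⟨b, hb1⟩ with hc
      apply card_bij' (fun a _ => a * c) (fun a _ => a * c⁻¹)
      · intro a ha
        rw [mem_filter] at ha ⊢
        refine ⟨mem_univ _, ?_⟩
        show (a : Aut k K) (b x₀) = x
        rw [hb2, ha.2]
      · intro a ha
        rw [mem_filter] at ha ⊢
        refine ⟨mem_univ _, ?_⟩
        show (a : Aut k K) (b⁻¹ x) = x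
        have : b⁻¹ x = x₀ := by
          rw [← hb2]
          show (b⁻¹ * b) x₀ = x₀
          rw [inv_mul_cancel]; rfl
        rw [this, ha.2]
      · intro a _; group
      · intro a _; group
    rw [e1, sum_congr rfl e2, ← card_univ]
    symm
    apply card_eq_sum_card_fiberwise
    intro a _
    rw [mem_coe, mem_lev, ← map_iter, hx₀]
    exact a.2
  have h2 : ∀ n < M, ∀ g, X n g = 0 → X (n + 1) g = 0 := by
    intro n _ g hg
    simp only [hX, fx] at hg ⊢
    rw [card_eq_zero, filter_eq_empty_iff] at hg ⊢
    intro x hx hgx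
    rw [mem_lev] at hx
    apply hg (x := f x)
    · rw [mem_lev, ← Function.iterate_succ_apply]; exact hx
    · rw [map_f, hgx]
  have h3 : ∀ n ≤ M, ∀ g, ∀ h ∈ Vn k n γ, X n (g * h) = X n g := by
    intro n _ g h hh
    simp only [hX, fx]
    congr 1
    apply filter_congr
    intro x hx
    rw [mem_lev] at hx
    show (g : Aut k K) ((h : Aut k K) x) = x ↔ _
    rw [hh x hx]
  have hV : ∀ n < M, Vn k (n + 1) γ ≤ Vn k n γ := by
    intro n hn a ha y hy
    obtain ⟨θ, hθ⟩ := hsq n hn y hy
    have hf : f θ = y := by unfold f; rw [hθ]; ring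
    have := ha θ (by rw [Function.iterate_succ_apply, hf, hy])
    rw [← hf, map_f, this]
  have h4 : ∀ n < M, ∀ g, X n g ≠ 0 →
      (Ext.el (Vn k n γ)).card ≤ 2 ^ (X n g) *
        ((Ext.el (Vn k n γ)).filter (fun h => X (n + 1) (g * h) < X n g)).card := by
    intro n hn a ha
    obtain ⟨g, hg1, hg2, hg3⟩ := hkey n hn a a.2 ha
    set c : Sg k γ := ⟨g, hg1⟩ with hc
    have hcV : c ∈ Vn k n γ := hg2
    set W := Wn n γ a with hW
    have s1 : (Ext.el W).card ≤
        ((Ext.el (Vn k n γ)).filter (fun h => X (n + 1) (a * h) < X n a)).card := by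
      apply card_le_card_of_injOn (fun b => c * b)
      · intro b hb
        rw [mem_coe, Ext.mem_el] at hb
        rw [mem_coe, mem_filter, Ext.mem_el]
        refine ⟨(Vn k n γ).mul_mem hcV hb.1, ?_⟩
        have : X (n + 1) (a * (c * b)) = X (n + 1) (a * c) := by
          simp only [hX, fx]
          congr 1
          apply filter_congr
          intro x hx
          rw [mem_lev] at hx
          have hfx : f^[n] (f x) = γ := by rw [← Function.iterate_succ_apply]; exact hx
          have cf : (c : Aut k K) (f x) = f x := hcV _ hfx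
          have bf : (b : Aut k K) (f x) = f x := hb.1 _ hfx
          show (a : Aut k K) ((c : Aut k K) ((b : Aut k K) x)) = x ↔
            (a : Aut k K) ((c : Aut k K) x) = x
          constructor
          · intro h
            have h5 : (a : Aut k K) (f x) = f x := by
              have := congrArg f h
              rw [← map_f, ← map_f, ← map_f, bf, cf] at this
              exact this
            have h6 := hb.2 x hx h5
            rwa [h6] at h
          · intro h
            have h5 : (a : Aut k K) (f x) = f x := by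
              have := congrArg f h
              rw [← map_f, ← map_f, cf] at this
              exact this
            rw [hb.2 x hx h5, h]
        rw [this]
        exact hg3
      · intro b _ b' _ hbb
        exact mul_left_cancel hbb
    set F := (lev n γ).filter (fun y => (a : Aut k K) y = y) with hF
    have hθ : ∀ y : F, ∃ θ : K, θ ^ 2 = 1 + (y : K) := by
      intro y
      have := (mem_filter.mp y.2).1
      rw [mem_lev] at this
      exact hsq n hn _ this
    choose θ hθ using hθ
    have s2 : (Ext.el (Vn k n γ)).card ≤ (Ext.el W).card *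
        ((Ext.el (Vn k n γ)).image (fun b : Sg k γ => fun y : F => decide ((b : Aut k K) (θ y) = θ y))).card := by
      apply card_le_mul_card_image
      intro D hD
      rw [mem_image] at hD
      obtain ⟨b₀, hb₀, rfl⟩ := hD
      rw [Ext.mem_el] at hb₀
      apply card_le_card_of_injOn (fun b => b₀⁻¹ * b)
      · intro b hb
        rw [mem_coe, mem_filter, Ext.mem_el] at hb
        obtain ⟨hb, hD⟩ := hb
        rw [mem_coe, Ext.mem_el]
        refine ⟨(Vn k n γ).mul_mem ((Vn k n γ).inv_mem hb₀) hb, ?_⟩
        intro x hx hax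
        have hfx : f^[n] (f x) = γ := by rw [← Function.iterate_succ_apply]; exact hx
        have hy : f x ∈ F := by rw [hF, mem_filter, mem_lev]; exact ⟨hfx, hax⟩
        set y : F := ⟨f x, hy⟩ with hydef
        have hθy : θ y ^ 2 = 1 + f x := hθ y
        have pm : ∀ b' : Sg k γ, b' ∈ Vn k n γ →
            (b' : Aut k K) (θ y) = θ y ∨ (b' : Aut k K) (θ y) = -θ y := by
          intro b' hb'
          have e : ((b' : Aut k K) (θ y)) ^ 2 = (θ y) ^ 2 := by
            rw [← map_pow, hθy, map_add, map_one, hb' _ hfx]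
          have h4 : ((b' : Aut k K) (θ y) - θ y) * ((b' : Aut k K) (θ y) + θ y) = 0 := by
            linear_combination e
          rcases mul_eq_zero.mp h4 with h5 | h5
          · left; linear_combination h5
          · right; linear_combination h5
        have hDy := congrFun hD y
        simp only [decide_eq_decide] at hDy
        have same : (b : Aut k K) (θ y) = (b₀ : Aut k K) (θ y) := by
          rcases pm b hb with h | h
          · rw [h, hDy.mp h]
          · rcases pm b₀ hb₀ with h' | h'
            · rw [h', hDy.mpr h']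
            · rw [h, h']
        have fixθ : ((b₀⁻¹ * b : Sg k γ) : Aut k K) (θ y) = θ y := by
          show (b₀ : Aut k K)⁻¹ ((b : Aut k K) (θ y)) = θ y
          rw [same]
          show ((b₀ : Aut k K)⁻¹ * (b₀ : Aut k K)) (θ y) = θ y
          rw [inv_mul_cancel]; rfl
        have h4 : (x - θ y) * (x + θ y) = 0 := by
          have : x ^ 2 = 1 + f x := by unfold f; ring
          linear_combination this - hθy
        rcases mul_eq_zero.mp h4 with h5 | h5
        · have : x = θ y := by linear_combination h5
          rw [this, fixθ]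
        · have : x = -θ y := by linear_combination h5
          rw [this, map_neg, fixθ]
      · intro b _ b' _ hbb
        exact mul_left_cancel hbb
    have s3 : ((Ext.el (Vn k n γ)).image
        (fun b : Sg k γ => fun y : F => decide ((b : Aut k K) (θ y) = θ y))).card ≤ 2 ^ (X n a) := by
      refine (card_le_univ _).trans ?_
      rw [Fintype.card_fun, Fintype.card_bool, Fintype.card_coe]
      exact le_of_eq rfl
    calc (Ext.el (Vn k n γ)).card ≤ (Ext.el W).card * _ := s2
      _ ≤ (Ext.el W).card * 2 ^ (X n a) := Nat.mul_le_mul_left _ s3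
      _ = 2 ^ (X n a) * (Ext.el W).card := mul_comm _ _
      _ ≤ _ := Nat.mul_le_mul_left _ s1
  have main := Ext.extinction X (fun n => Vn k n γ) M hV h1 h2 h3 h4 C hM
  have c1 : ((univ : Finset (Aut k K)).filter
      (fun a => a γ = γ ∧ ∃ x, f^[M] x = γ ∧ a x = x)).card ≤ Ext.Q X M := by
    unfold Ext.Q
    apply card_le_card_of_surjOn (fun a : Sg k γ => (a : Aut k K))
    intro a ha
    rw [mem_coe, mem_filter] at ha
    obtain ⟨-, ha1, x, hx1, hx2⟩ := ha
    refine ⟨⟨a, ha1⟩, ?_, rfl⟩
    rw [mem_coe, mem_filter]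
    refine ⟨mem_univ _, ?_⟩
    simp only [hX, fx]
    rw [card_ne_zero]
    exact ⟨x, by rw [mem_filter, mem_lev]; exact ⟨hx1, hx2⟩⟩
  have c2 : Fintype.card (Sg k γ) ≤ Fintype.card (Aut k K) :=
    Fintype.card_le_of_injective _ Subtype.val_injective
  calc _ ≤ (C + 1) * Ext.Q X M := Nat.mul_le_mul_left _ c1
    _ ≤ 2 * Fintype.card (Sg k γ) := main
    _ ≤ _ := Nat.mul_le_mul_left _ c2

end Q280.Basilica.Count
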