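import Pool.Agent.Q280.Basilica.Step

set_option autoImplicit false

/-!
# Lowering the number of fixed vertices
-/

namespace Q280.Basilica

open Subgroup

variable {k Ω : Type*} [Field k] [Field Ω] [Algebra k Ω] [IsAlgClosed Ω]

section quad

variable {v z : Ω} {σ τ : Aut k Ω}

lemma κ1_cases (hσ : σ v = v) (hv : v ≠ 0) : κ 1 v σ = 1 ∨ κ 1 v σ = -1 :=
  κ_one_cases hσ hv

lemma κ1_eq (h : σ v = v) (hv : v ≠ 0) (hz : z ^ 2 = v) : σ z = κ 1 v σ * z := by
  have hr := rt_pow 1 v
  rw [pow_one] at hr
  have hr0 : rt 1 v ≠ 0 := rt_ne hv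
  have h1 : σ (rt 1 v) = κ 1 v σ * rt 1 v := by
    unfold κ; rw [div_mul_cancel₀ _ hr0]
  have h2 : (z - rt 1 v) * (z + rt 1 v) = 0 := by linear_combination hz - hr
  rcases mul_eq_zero.mp h2 with h3 | h3
  · have : z = rt 1 v := by linear_combination h3
    rw [this, h1]
  · have : z = -rt 1 v := by linear_combination h3
    rw [this, map_neg, h1]; ring

lemma κ1_mul (h : σ v = v) (h' : τ v = v) (hv : v ≠ 0) :
    κ 1 v (σ * τ) = κ 1 v σ * κ 1 v τ := by
  have hr0 : rt 1 v ≠ 0 := rt_ne hv
  have hr := rt_pow 1 v
  rw [pow_one] at hr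
  have h1 : (σ * τ) (rt 1 v) = κ 1 v (σ * τ) * rt 1 v :=
    κ1_eq (by rw [AlgEquiv.mul_apply, h', h]) hv hr
  rw [AlgEquiv.mul_apply, κ1_eq h' hv hr, map_mul, κ1_eq h hv hr] at h1
  have h2 : σ (κ 1 v τ) = κ 1 v τ := by
    rcases κ1_cases h' hv with e | e <;> rw [e] <;> simp
  rw [h2] at h1
  apply mul_right_cancel₀ hr0
  rw [← h1]; ring

end quad

lemma trans_level (n : ℕ) : ∀ {v x y : Ω}, Good k v → f^[n] x = v → f^[n] y = v →
    ∃ σ ∈ St k v, σ x = y := by
  induction n with
  | zero =>
    intro v x y _ hx hy
    have hx' : x = v := hx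
    have hy' : y = v := hy
    exact ⟨1, (St k v).one_mem, by rw [hx', hy']; rfl⟩
  | succ n ih =>
    intro v x y h hx hy
    rw [Function.iterate_succ_apply'] at hx hy
    have hu : (f^[n] x) ^ 2 = 1 + v := by rw [← hx]; unfold f; ring
    have hu' : (f^[n] y) ^ 2 = 1 + v := by rw [← hy]; unfold f; ring
    have h1 : (f^[n] y - f^[n] x) * (f^[n] y + f^[n] x) = 0 := by linear_combination hu' - hu
    rcases mul_eq_zero.mp h1 with h2 | h2
    · have h3 : f^[n] y = f^[n] x := by linear_combination h2
      obtain ⟨σ, hσ, e⟩ := ih (h.child hu) rfl h3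
      exact ⟨σ, St_child hu hσ, e⟩
    · have h3 : f^[n] y = -f^[n] x := by linear_combination h2
      obtain ⟨-, ⟨s, hs, -, hs2⟩⟩ := id h
      have hsu : s (f^[n] x) = -f^[n] x := by rw [fix_of_κ h.ne' hu hs.1, hs2]; ring
      obtain ⟨σ, hσ, e⟩ := ih (v := -f^[n] x) (x := s x) (y := y) (h.child_neg hu)
        (by rw [← map_iter, hsu]) h3
      refine ⟨σ * s, (St k v).mul_mem (St_child (neg_child hu) hσ) hs, ?_⟩
      rw [AlgEquiv.mul_apply, e]

/-- the vertices of level `n` above `v` -/
noncomputable def Lev (n : ℕ) (v : Ω) : Finset Ω := (finite_level n v).toFinset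

lemma mem_Lev {n : ℕ} {v x : Ω} : x ∈ Lev n v ↔ f^[n] x = v := by
  unfold Lev
  rw [Set.Finite.mem_toFinset, Set.mem_ofPred_eq]

open Classical in
/-- several pairs at the same time -/
lemma elB' [CharZero Ω] {n : ℕ} {v : Ω} (h : Good k v) (S : Finset Ω) (hS : S ⊆ Lev n v) :
    ∃ g ∈ U k (n + 1) v, ∀ β, f^[n + 1] β = v → κ 1 (1 + β) g = if f β ∈ S then -1 else 1 := by
  induction S using Finset.induction_on with
  | empty =>
    refine ⟨1, (U k (n + 1) v).one_mem, fun β hβ => ?_⟩
    rw [if_neg (Finset.notMem_empty _)]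
    exact κ_one (h.iter hβ).ne'
  | insert w S hw ih =>
    obtain ⟨g, hg, e⟩ := ih (fun x hx => hS (Finset.mem_insert_of_mem hx))
    obtain ⟨g', hg', e'⟩ := elB n h (mem_Lev.mp (hS (Finset.mem_insert_self w S)))
    refine ⟨g * g', (U k (n + 1) v).mul_mem hg hg', fun β hβ => ?_⟩
    have hG := h.iter hβ
    have f1 : g β = β := hg.2 β hβ
    have f2 : g' β = β := hg'.2 β hβ
    rw [κ1_mul (by rw [map_add, map_one, f1]) (by rw [map_add, map_one, f2]) hG.ne', e β hβ,
      e' β hβ]
    by_cases c1 : f β = w
    · rw [if_neg (by rw [c1]; exact hw), if_pos c1, if_pos (by rw [c1]; exact Finset.mem_insert_self w S)]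
      ring
    · by_cases c2 : f β ∈ S
      · rw [if_pos c2, if_neg c1, if_pos (Finset.mem_insert_of_mem c2)]; ring
      · rw [if_neg c2, if_neg c1, if_neg (by rw [Finset.mem_insert]; tauto)]; ring

open Classical in
/-- the number of vertices of level `n` fixed by an automorphism -/
noncomputable def fixn (n : ℕ) (v : Ω) (σ : Aut k Ω) : ℕ :=
  ((Lev n v).filter (fun x => σ x = x)).card

open Classical in
/-- The number of fixed vertices can be lowered at the next level. -/
lemma key [CharZero Ω] (n : ℕ) {v : Ω} {σ : Aut k Ω} (h : Good k v) (hσ : σ v = v)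
    (hX : fixn n v σ ≠ 0) : ∃ g ∈ U k n v, fixn (n + 1) v (σ * g) < fixn n v σ := by
  cases n with
  | zero =>
    obtain ⟨u, hu⟩ := exists_child v
    obtain ⟨-, ⟨s, hs, -, hs2⟩⟩ := id h
    have hsu : s u = -u := by rw [fix_of_κ h.ne' hu hs.1, hs2]; ring
    have hu0 := child_ne h hu
    have hσ1 : σ u = u ∨ σ u = -u := by
      have h3 : (σ u - u) * (σ u + u) = 0 := by
        have : (σ u) ^ 2 = u ^ 2 := by rw [← map_pow, hu, map_add, map_one, hσ]
        linear_combination this
      rcases mul_eq_zero.mp h3 with h | h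
      · left; linear_combination h
      · right; linear_combination h
    have ex : ∃ g ∈ St k v, (σ * g) u = -u := by
      rcases hσ1 with h1 | h1
      · exact ⟨s, hs, by rw [AlgEquiv.mul_apply, hsu, map_neg, h1]⟩
      · exact ⟨1, (St k v).one_mem, by rw [mul_one, h1]⟩
    obtain ⟨g, hg, hgu⟩ := ex
    refine ⟨g, by rw [U_zero]; exact hg, ?_⟩
    have : fixn 1 v (σ * g) = 0 := by
      unfold fixn
      rw [Finset.card_eq_zero, Finset.filter_eq_empty_iff]
      intro x hx hfx
      rw [mem_Lev] at hx
      have hx' : f x = v := hx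
      have h4 : (x - u) * (x + u) = 0 := by
        unfold f at hx'
        linear_combination hx' - hu
      have h5 : u ≠ -u := by
        intro h6
        apply hu0
        have : u + u = 0 := by linear_combination h6
        exact add_self_eq_zero.mp this
      rcases mul_eq_zero.mp h4 with h6 | h6
      · have : x = u := by linear_combination h6
        rw [this, hgu] at hfx
        exact h5 hfx.symm
      · have : x = -u := by linear_combination h6
        rw [this, map_neg, hgu, neg_neg] at hfx
        exact h5 hfx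
    rw [this]
    exact Nat.pos_of_ne_zero hX
  | succ n =>
    set F := (Lev (n + 1) v).filter (fun x => σ x = x) with hF
    have memF : ∀ β, β ∈ F ↔ f^[n + 1] β = v ∧ σ β = β := by
      intro β; rw [hF, Finset.mem_filter, mem_Lev]
    have negF : ∀ β, β ∈ F → -β ∈ F := by
      intro β hβ
      rw [memF] at hβ ⊢
      refine ⟨?_, by rw [map_neg, hβ.2]⟩
      rw [Function.iterate_succ_apply, f_neg, ← Function.iterate_succ_apply]
      exact hβ.1
    have good : ∀ β, β ∈ F → Good k β := fun β hβ => h.iter ((memF β).mp hβ).1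
    obtain ⟨β₁, hβ₁⟩ : F.Nonempty := Finset.card_ne_zero.mp hX
    have hβ₁' := (memF _).mp hβ₁
    have hw1 : f^[n] (f β₁) = v := by rw [← Function.iterate_succ_apply]; exact hβ₁'.1
    -- multiplicativity
    have mulF : ∀ β ∈ F, ∀ g ∈ U k (n + 1) v,
        κ 1 (1 + β) (σ * g) = κ 1 (1 + β) σ * κ 1 (1 + β) g := by
      intro β hβ g hg
      have hβ' := (memF _).mp hβ
      exact κ1_mul (by rw [map_add, map_one, hβ'.2]) (by rw [map_add, map_one, hg.2 β hβ'.1])
        (good β hβ).ne'
    -- first step
    have step1 : ∃ g ∈ U k (n + 1) v, κ 1 (1 + β₁) (σ * g) = κ 1 (1 + -β₁) (σ * g) := by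
      by_cases he : κ 1 (1 + β₁) σ = κ 1 (1 + -β₁) σ
      · exact ⟨1, (U k (n + 1) v).one_mem, by rw [mul_one]; exact he⟩
      · obtain ⟨g, hg, e⟩ := elA n h hw1
        refine ⟨g, hg, ?_⟩
        rw [mulF _ hβ₁ g hg, mulF _ (negF _ hβ₁) g hg]
        have hG : Good k (f β₁) := h.iter hw1
        have hsq : β₁ ^ 2 = 1 + f β₁ := by unfold f; ring
        have e2 := κ_prod (m := 1) hG hsq hg.1
        rw [e, sub_eq_add_neg] at e2
        have c1 := κ1_cases (σ := σ) (v := 1 + β₁) (by rw [map_add, map_one, hβ₁'.2]) (good _ hβ₁).ne'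
        have c2 := κ1_cases (σ := σ) (v := 1 + -β₁) (by rw [map_add, map_one, map_neg, hβ₁'.2])
          (good _ (negF _ hβ₁)).ne'
        have c3 := κ1_cases (σ := g) (v := 1 + β₁) (by rw [map_add, map_one, hg.2 _ hβ₁'.1])
          (good _ hβ₁).ne'
        rcases c1 with c1 | c1 <;> rcases c2 with c2 | c2 <;> rcases c3 with c3 | c3 <;>
          rw [c1, c2] at he <;> rw [c3] at e2 <;> rw [c1, c2, c3]
        · exact absurd rfl he
        · exact absurd rfl he
        · linear_combination e2
        · linear_combination -e2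
        · linear_combination -e2
        · linear_combination e2
        · exact absurd rfl he
        · exact absurd rfl he
    obtain ⟨g₁, hg₁, eg₁⟩ := step1
    -- second step
    set S := (Lev n v).filter (fun w => ∀ β, f β = w → σ β = β ∧ κ 1 (1 + β) (σ * g₁) = 1) with hS
    obtain ⟨g₂, hg₂, eg₂⟩ := elB' h S (Finset.filter_subset _ _)
    have hg : g₁ * g₂ ∈ U k (n + 1) v := (U k (n + 1) v).mul_mem hg₁ hg₂
    refine ⟨g₁ * g₂, hg, ?_⟩
    have val : ∀ β ∈ F, κ 1 (1 + β) (σ * (g₁ * g₂)) =
        κ 1 (1 + β) (σ * g₁) * (if f β ∈ S then -1 else 1) := by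
      intro β hβ
      have hβ' := (memF _).mp hβ
      rw [mulF β hβ _ hg, mulF β hβ _ hg₁, κ1_mul (by rw [map_add, map_one, hg₁.2 β hβ'.1])
        (by rw [map_add, map_one, hg₂.2 β hβ'.1]) (good β hβ).ne', eg₂ β hβ'.1]
      ring
    set A := F.filter (fun β => κ 1 (1 + β) (σ * (g₁ * g₂)) = 1) with hA
    have one_ne : (-1 : Ω) ≠ 1 := by
      intro h1
      have : (2 : Ω) = 0 := by linear_combination -h1
      exact two_ne_zero this
    have disjA : ∀ β ∈ A, -β ∉ A := by
      intro β hβ hnβ
      rw [hA, Finset.mem_filter] at hβ hnβ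
      have v1 := val β hβ.1
      have v2 := val (-β) hnβ.1
      rw [hβ.2] at v1
      rw [hnβ.2, f_neg] at v2
      by_cases hs : f β ∈ S
      · rw [if_pos hs] at v1
        rw [hS, Finset.mem_filter] at hs
        have := (hs.2 β rfl).2
        rw [this, one_mul] at v1
        exact one_ne v1.symm
      · rw [if_neg hs, mul_one] at v1 v2
        apply hs
        rw [hS, Finset.mem_filter, mem_Lev]
        have hβ' := (memF _).mp hβ.1
        refine ⟨by rw [← Function.iterate_succ_apply]; exact hβ'.1, ?_⟩
        intro β' hβ'e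
        have h4 : (β' - β) * (β' + β) = 0 := by
          unfold f at hβ'e
          linear_combination hβ'e
        rcases mul_eq_zero.mp h4 with h5 | h5
        · have : β' = β := by linear_combination h5
          rw [this]
          exact ⟨hβ'.2, v1.symm⟩
        · have : β' = -β := by linear_combination h5
          rw [this]
          exact ⟨by rw [map_neg, hβ'.2], v2.symm⟩
    have notA : β₁ ∉ A ∧ -β₁ ∉ A := by
      have both : κ 1 (1 + β₁) (σ * (g₁ * g₂)) = -1 ∧ κ 1 (1 + -β₁) (σ * (g₁ * g₂)) = -1 := by
        have v1 := val β₁ hβ₁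
        have v2 := val (-β₁) (negF _ hβ₁)
        rw [f_neg, ← eg₁] at v2
        rw [v2, v1]
        have hc := κ1_cases (σ := σ * g₁) (v := 1 + β₁)
          (by rw [AlgEquiv.mul_apply, map_add, map_one, hg₁.2 _ hβ₁'.1, map_add, map_one, hβ₁'.2])
          (good _ hβ₁).ne'
        rcases hc with hc | hc
        · have hs : f β₁ ∈ S := by
            rw [hS, Finset.mem_filter, mem_Lev]
            refine ⟨hw1, ?_⟩
            intro β' hβ'e
            have h4 : (β' - β₁) * (β' + β₁) = 0 := by
              unfold f at hβ'e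
              linear_combination hβ'e
            rcases mul_eq_zero.mp h4 with h5 | h5
            · have : β' = β₁ := by linear_combination h5
              rw [this]
              exact ⟨hβ₁'.2, hc⟩
            · have : β' = -β₁ := by linear_combination h5
              rw [this]
              exact ⟨by rw [map_neg, hβ₁'.2], by rw [← eg₁]; exact hc⟩
          rw [if_pos hs, hc]
          constructor <;> ring
        · have hs : f β₁ ∉ S := by
            intro hs
            rw [hS, Finset.mem_filter] at hs
            have := (hs.2 β₁ rfl).2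
            rw [hc] at this
            exact one_ne this
          rw [if_neg hs, hc]
          constructor <;> ring
      refine ⟨fun hx => ?_, fun hx => ?_⟩
      · rw [hA, Finset.mem_filter, both.1] at hx
        exact one_ne hx.2
      · rw [hA, Finset.mem_filter, both.2] at hx
        exact one_ne hx.2
    -- counting
    have cA : 2 * A.card < F.card := by
      have hneg : (A.image (fun x => -x)).card = A.card :=
        Finset.card_image_of_injective _ neg_injective
      have hd : Disjoint A (A.image (fun x => -x)) := by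
        rw [Finset.disjoint_left]
        intro x hx hx'
        rw [Finset.mem_image] at hx'
        obtain ⟨y, hy, rfl⟩ := hx'
        exact disjA y hy hx
      have hsub : A ∪ A.image (fun x => -x) ⊆ F.erase β₁ := by
        intro x hx
        rw [Finset.mem_union] at hx
        rw [Finset.mem_erase]
        rcases hx with hx | hx
        · refine ⟨?_, (Finset.filter_subset _ _) hx⟩
          rintro rfl
          exact notA.1 hx
        · rw [Finset.mem_image] at hx
          obtain ⟨y, hy, rfl⟩ := hx
          refine ⟨?_, negF _ ((Finset.filter_subset _ _) hy)⟩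
          intro h1
          apply notA.2
          rw [← h1, neg_neg]; exact hy
      have := Finset.card_le_card hsub
      rw [Finset.card_union_of_disjoint hd, hneg, Finset.card_erase_of_mem hβ₁] at this
      have hpos : 0 < F.card := Finset.card_pos.mpr ⟨β₁, hβ₁⟩
      omega
    have cF : fixn (n + 1 + 1) v (σ * (g₁ * g₂)) ≤ 2 * A.card := by
      unfold fixn
      have himg : ((Lev (n + 1 + 1) v).filter
          (fun x => (σ * (g₁ * g₂)) x = x)).card ≤
          2 * (((Lev (n + 1 + 1) v).filter
          (fun x => (σ * (g₁ * g₂)) x = x)).image f).card := by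
        apply Finset.card_le_mul_card_image
        intro y _
        obtain ⟨u, hu⟩ := exists_child y
        have : ((Lev (n + 1 + 1) v).filter
          (fun x => (σ * (g₁ * g₂)) x = x)).filter (fun x => f x = y) ⊆ {u, -u} := by
          intro x hx
          rw [Finset.mem_filter] at hx
          have hxy := hx.2
          have h4 : (x - u) * (x + u) = 0 := by
            unfold f at hxy
            linear_combination hxy - hu
          rw [Finset.mem_insert, Finset.mem_singleton]
          rcases mul_eq_zero.mp h4 with h5 | h5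
          · left; linear_combination h5
          · right; linear_combination h5
        exact (Finset.card_le_card this).trans Finset.card_le_two
      refine himg.trans (Nat.mul_le_mul_left 2 (Finset.card_le_card ?_))
      intro y hy
      rw [Finset.mem_image] at hy
      obtain ⟨x, hx, rfl⟩ := hy
      rw [Finset.mem_filter, mem_Lev] at hx
      obtain ⟨hx1, hx2⟩ := hx
      rw [Function.iterate_succ_apply] at hx1
      have hτ : (σ * (g₁ * g₂)) (f x) = f x := by rw [map_f, hx2]
      have hgf : (g₁ * g₂) (f x) = f x := hg.2 _ hx1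
      have hσf : σ (f x) = f x := by
        rw [AlgEquiv.mul_apply, hgf] at hτ
        exact hτ
      have hfF : f x ∈ F := (memF _).mpr ⟨hx1, hσf⟩
      rw [hA, Finset.mem_filter]
      refine ⟨hfF, ?_⟩
      have hsq : x ^ 2 = 1 + f x := by unfold f; ring
      have h5 := κ1_eq (σ := σ * (g₁ * g₂)) (v := 1 + f x) (z := x)
        (by rw [map_add, map_one, hτ]) (good _ hfF).ne' hsq
      rw [hx2] at h5
      have hx0 : x ≠ 0 := by
        rintro rfl
        apply (good _ hfF).ne'
        rw [← hsq]; ring
      exact mul_right_cancel₀ hx0 (by rw [← h5, one_mul])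
    have : fixn (n + 1) v σ = F.card := rfl
    omega

end Q280.Basilica
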