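import Pool.Agent.Q280.Basilica.Base
import Pool.Agent.Q280.Basilica.Key
import Pool.Agent.Q280.Basilica.Count

set_option autoImplicit false

/-!
# The bound in a normal extension of the rationals
-/

namespace Q280.Basilica.Final

open Finset Q280.Basilica Q280.Basilica.Count

variable {K Ω : Type*} [Field K] [Field Ω]

lemma ring_iter (j : K →+* Ω) (n : ℕ) (x : K) : j (f^[n] x) = f^[n] (j x) := by
  induction n with
  | zero => rfl
  | succ n ih =>
    rw [Function.iterate_succ_apply', Function.iterate_succ_apply', ← ih]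
    unfold f; simp

lemma card_lev (n : ℕ) (v : K) : (lev n v).card ≤ 2 ^ n := by
  classical
  induction n with
  | zero =>
    have : lev 0 v ⊆ {v} := by
      intro x hx
      rw [mem_lev] at hx
      rw [mem_singleton]; exact hx
    simpa using card_le_card this
  | succ n ih =>
    have h1 : (lev (n + 1) v).card ≤ 2 * ((lev (n + 1) v).image f).card := by
      apply card_le_mul_card_image
      intro b _
      by_cases hb : ∃ u, u ∈ (lev (n + 1) v).filter (fun x => f x = b)
      · obtain ⟨u, hu⟩ := hb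
        rw [mem_filter] at hu
        refine (card_le_card (t := {u, -u}) ?_).trans card_le_two
        intro x hx
        rw [mem_filter] at hx
        have h4 : (x - u) * (x + u) = 0 := by
          have e1 := hx.2
          have e2 := hu.2
          unfold f at e1 e2
          linear_combination e1 - e2
        rw [mem_insert, mem_singleton]
        rcases mul_eq_zero.mp h4 with h5 | h5
        · left; linear_combination h5
        · right; linear_combination h5
      · push Not at hb
        rw [Finset.eq_empty_of_forall_notMem hb]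
        simp
    have h2 : (lev (n + 1) v).image f ⊆ lev n v := by
      intro y hy
      rw [mem_image] at hy
      obtain ⟨x, hx, rfl⟩ := hy
      rw [mem_lev] at hx ⊢
      rw [← Function.iterate_succ_apply]; exact hx
    calc (lev (n + 1) v).card ≤ 2 * ((lev (n + 1) v).image f).card := h1
      _ ≤ 2 * (lev n v).card := Nat.mul_le_mul_left _ (card_le_card h2)
      _ ≤ 2 * 2 ^ n := Nat.mul_le_mul_left _ ih
      _ = 2 ^ (n + 1) := by ring

variable [Algebra ℚ K] [Algebra ℚ Ω] [IsAlgClosed Ω] [Algebra.IsAlgebraic ℚ Ω] [CharZero Ω]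
  [Algebra K Ω] [IsScalarTower ℚ K Ω] [Normal ℚ K] [Fintype (Aut ℚ K)]

omit [Algebra.IsAlgebraic ℚ Ω] [CharZero Ω] [Normal ℚ K] [Fintype (Aut ℚ K)] [Algebra ℚ K]
  [Algebra ℚ Ω] [IsScalarTower ℚ K Ω] in
lemma range_of {m : ℕ} (hK : ∀ x : Ω, f^[m] x = 1 → ∃ y : K, algebraMap K Ω y = x)
    {l : ℕ} (hl : l ≤ m) {x : Ω} (hx : f^[l] x = 1) : ∃ y : K, algebraMap K Ω y = x := by
  obtain ⟨z, hz⟩ := exists_iter (m - l) x
  obtain ⟨w, hw⟩ := hK z (by
    have : m = l + (m - l) := by omega
    rw [this, Function.iterate_add_apply, hz, hx])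
  exact ⟨f^[m - l] w, by rw [ring_iter, hw, hz]⟩

open Classical in
omit [Fintype (Aut ℚ K)] [Algebra.IsAlgebraic ℚ Ω] [CharZero Ω] [IsScalarTower ℚ K Ω]
  [Normal ℚ K] in
lemma fx_eq {m : ℕ} (hK : ∀ x : Ω, f^[m] x = 1 → ∃ y : K, algebraMap K Ω y = x)
    {γ : K} {l : ℕ} (hγ : f^[l] γ = 1) {n : ℕ} (hn : l + n ≤ m) (a : Aut ℚ K) (σ : Aut ℚ Ω)
    (h : ∀ x, algebraMap K Ω (a x) = σ (algebraMap K Ω x)) :
    fx n γ a = fixn n (algebraMap K Ω γ) σ := by
  have inj : Function.Injective (algebraMap K Ω) := (algebraMap K Ω).injective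
  unfold fx fixn
  apply card_bij (fun x _ => algebraMap K Ω x)
  · intro x hx
    rw [mem_filter, mem_lev] at hx
    rw [mem_filter, mem_Lev]
    exact ⟨by rw [← ring_iter, hx.1], by rw [← h, hx.2]⟩
  · intro x _ y _ hxy
    exact inj hxy
  · intro y hy
    rw [mem_filter, mem_Lev] at hy
    obtain ⟨x, hx⟩ := range_of hK hn (x := y) (by
      rw [Function.iterate_add_apply, hy.1, ← ring_iter, hγ, map_one])
    refine ⟨x, ?_, hx⟩
    rw [mem_filter, mem_lev]
    refine ⟨inj ?_, inj ?_⟩
    · rw [ring_iter, hx, hy.1]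
    · rw [h, hx, hy.2]

open Classical in
variable (Ω) in
theorem bound (m : ℕ) (hK : ∀ x : Ω, f^[m] x = 1 → ∃ y : K, algebraMap K Ω y = x)
    (hm : 2 ≤ m) (C : ℕ) (hC : ((C + 1) * Ext.b C + 1) * C ≤ m - 2) :
    (C + 1) * ((univ : Finset (Aut ℚ K)).filter
      (fun a => ∃ x, f^[m] x = 1 ∧ a x = x)).card ≤ 8 * Fintype.card (Aut ℚ K) := by
  have inj : Function.Injective (algebraMap K Ω) := (algebraMap K Ω).injective
  have : IsAlgClosure ℚ Ω := ⟨inferInstance, inferInstance⟩
  have : Normal ℚ Ω := IsAlgClosure.normal ℚ Ω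
  have comm : ∀ (σ : Aut ℚ Ω) (x : K), algebraMap K Ω (σ.restrictNormal K x) =
      σ (algebraMap K Ω x) := fun σ x => AlgEquiv.restrictNormal_commutes σ K x
  have each : ∀ γ : K, f^[2] γ = 1 → (C + 1) * ((univ : Finset (Aut ℚ K)).filter
      (fun a => a γ = γ ∧ ∃ x, f^[m - 2] x = γ ∧ a x = x)).card ≤
        2 * Fintype.card (Aut ℚ K) := by
    intro γ hγ
    have hγ' : f^[2] (algebraMap K Ω γ) = 1 := by rw [← ring_iter, hγ, map_one]
    have good : Good ℚ (algebraMap K Ω γ) := good_level2 hγ'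
    apply count γ (m - 2) C ?_ ?_ ?_ hC
    · intro n hn y hy
      obtain ⟨u, hu⟩ := exists_child (algebraMap K Ω y)
      have hfu : f u = algebraMap K Ω y := by unfold f; rw [hu]; ring
      obtain ⟨θ, hθ⟩ := range_of hK (l := 2 + (n + 1)) (x := u) (by omega) (by
        rw [Function.iterate_add_apply f 2 (n + 1) u, Function.iterate_succ_apply f n u, hfu,
          ← ring_iter, hy, hγ'])
      refine ⟨θ, inj ?_⟩
      rw [map_pow, hθ, hu, map_add, map_one]
    · intro n hn x y hx hy
      obtain ⟨σ, hσ, e⟩ := trans_level n good (x := algebraMap K Ω x) (y := algebraMap K Ω y)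
        (by rw [← ring_iter, hx]) (by rw [← ring_iter, hy])
      refine ⟨σ.restrictNormal K, inj ?_, inj ?_⟩
      · rw [comm]; exact hσ.2
      · rw [comm, e]
    · intro n hn a haγ ha
      obtain ⟨σ, hσ⟩ := AlgEquiv.restrictNormalHom_surjective (F := ℚ) (K₁ := K) Ω a
      have hσ' : ∀ x, algebraMap K Ω (a x) = σ (algebraMap K Ω x) := by
        intro x
        rw [← hσ]
        exact comm σ x
      have e0 := fx_eq hK hγ (n := n) (by omega) a σ hσ'
      have hσγ : σ (algebraMap K Ω γ) = algebraMap K Ω γ := by rw [← hσ', haγ]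
      rw [e0] at ha
      obtain ⟨g, hg, hlt⟩ := key n good hσγ ha
      refine ⟨g.restrictNormal K, inj ?_, ?_, ?_⟩
      · rw [comm]; exact (U_le_St n _ hg).2
      · intro x hx
        apply inj
        rw [comm]
        exact hg.2 _ (by rw [← ring_iter, hx])
      · rw [e0, fx_eq hK hγ (n := n + 1) (by omega) (a * g.restrictNormal K) (σ * g) (by
          intro x
          show algebraMap K Ω (a (g.restrictNormal K x)) = σ (g (algebraMap K Ω x))
          rw [hσ', comm])]
        exact hlt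
  have sub : (univ : Finset (Aut ℚ K)).filter (fun a => ∃ x, f^[m] x = 1 ∧ a x = x) ⊆
      (lev 2 (1 : K)).biUnion (fun γ => (univ : Finset (Aut ℚ K)).filter
      (fun a => a γ = γ ∧ ∃ x, f^[m - 2] x = γ ∧ a x = x)) := by
    intro a ha
    rw [mem_filter] at ha
    obtain ⟨-, x, hx1, hx2⟩ := ha
    rw [mem_biUnion]
    refine ⟨f^[m - 2] x, ?_, ?_⟩
    · rw [mem_lev, ← Function.iterate_add_apply]
      have : 2 + (m - 2) = m := by omega
      rw [this, hx1]
    · rw [mem_filter]
      exact ⟨mem_univ _, by rw [map_iter, hx2], x, rfl, hx2⟩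
  calc (C + 1) * ((univ : Finset (Aut ℚ K)).filter
      (fun a => ∃ x, f^[m] x = 1 ∧ a x = x)).card
      ≤ (C + 1) * ∑ γ ∈ lev 2 (1 : K), ((univ : Finset (Aut ℚ K)).filter
      (fun a => a γ = γ ∧ ∃ x, f^[m - 2] x = γ ∧ a x = x)).card :=
        Nat.mul_le_mul_left _ ((card_le_card sub).trans card_biUnion_le)
    _ = ∑ γ ∈ lev 2 (1 : K), (C + 1) * ((univ : Finset (Aut ℚ K)).filter
      (fun a => a γ = γ ∧ ∃ x, f^[m - 2] x = γ ∧ a x = x)).card := by rw [mul_sum]
    _ ≤ ∑ _γ ∈ lev 2 (1 : K), 2 * Fintype.card (Aut ℚ K) := by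
        apply sum_le_sum
        intro γ hγ
        rw [mem_lev] at hγ
        exact each γ hγ
    _ = (lev 2 (1 : K)).card * (2 * Fintype.card (Aut ℚ K)) := by
        rw [sum_const, smul_eq_mul]
    _ ≤ 2 ^ 2 * (2 * Fintype.card (Aut ℚ K)) := Nat.mul_le_mul_right _ (card_lev 2 1)
    _ = 8 * Fintype.card (Aut ℚ K) := by ring

end Q280.Basilica.Final
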