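import Pool.Agent.Q280.Basilica.Tree

set_option autoImplicit false

/-!
# Good vertices

A vertex `v` is good if `v` and `1 + v` are independent modulo squares in the fixed field of the
stabilizer of `v` in `Γ`.  Children of good vertices are good, and the Kummer symbols of
`u`, `1 + u`, `1 - u` at a child `u` take all values.
-/

namespace Q280.Basilica

variable {k Ω : Type*} [Field k] [Field Ω] [Algebra k Ω]

lemma f_neg (x : Ω) : f (-x) = f x := by unfold f; ring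

lemma St_child {u v : Ω} (hu : u ^ 2 = 1 + v) : St k u ≤ St k v := by
  intro σ hσ
  refine ⟨hσ.1, ?_⟩
  have : v = u ^ 2 - 1 := by rw [hu]; ring
  rw [this, map_sub, map_pow, hσ.2, map_one]

lemma St_neg (u : Ω) : St k (-u) = St k u := by
  ext σ
  simp only [mem_St, map_neg, neg_inj]

lemma St_one_add {u : Ω} {σ : Aut k Ω} (h : σ ∈ St k u) : σ ∈ St k (1 + u) :=
  ⟨h.1, by rw [map_add, map_one, h.2]⟩

lemma St_one_sub {u : Ω} {σ : Aut k Ω} (h : σ ∈ St k u) : σ ∈ St k (1 - u) :=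
  ⟨h.1, by rw [map_sub, map_one, h.2]⟩

lemma U_zero (v : Ω) : U k 0 v = St k v := by
  ext σ
  simp [mem_U, mem_St]

lemma U_succ {u v : Ω} (hu : u ^ 2 = 1 + v) (n : ℕ) :
    U k (n + 1) v = U k n u ⊓ U k n (-u) := by
  ext σ
  rw [Subgroup.mem_inf, mem_U, mem_U, mem_U]
  constructor
  · rintro ⟨h1, h2⟩
    refine ⟨⟨h1, fun x hx => h2 x ?_⟩, ⟨h1, fun x hx => h2 x ?_⟩⟩
    · rw [Function.iterate_succ_apply', hx]
      unfold f; rw [hu]; ring
    · rw [Function.iterate_succ_apply', hx, f_neg]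
      unfold f; rw [hu]; ring
  · rintro ⟨⟨h1, h2⟩, ⟨-, h3⟩⟩
    refine ⟨h1, fun x hx => ?_⟩
    rw [Function.iterate_succ_apply'] at hx
    have h4 : (f^[n] x - u) * (f^[n] x + u) = 0 := by
      unfold f at hx ⊢
      linear_combination hx - hu
    rcases mul_eq_zero.mp h4 with h | h
    · exact h2 x (by linear_combination h)
    · exact h3 x (by linear_combination h)

variable [IsAlgClosed Ω]

lemma exists_child (v : Ω) : ∃ u : Ω, u ^ 2 = 1 + v :=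
  IsAlgClosed.exists_pow_nat_eq (1 + v) (by norm_num)

lemma exists_iter (n : ℕ) : ∀ v : Ω, ∃ x : Ω, f^[n] x = v := by
  induction n with
  | zero => intro v; exact ⟨v, rfl⟩
  | succ n ih =>
    intro v
    obtain ⟨u, hu⟩ := exists_child v
    obtain ⟨x, hx⟩ := ih u
    refine ⟨x, ?_⟩
    rw [Function.iterate_succ_apply', hx]
    unfold f; rw [hu]; ring

lemma U_le_St (n : ℕ) (v : Ω) : U k n v ≤ St k v := by
  intro σ hσ
  obtain ⟨x, hx⟩ := exists_iter n v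
  refine ⟨hσ.1, ?_⟩
  rw [← hx, map_iter, hσ.2 x hx]

lemma U_le_of_iter {n j : ℕ} {v w : Ω} (h : f^[j] w = v) : U k (n + j) v ≤ U k n w := by
  intro σ hσ
  refine ⟨hσ.1, fun x hx => hσ.2 x ?_⟩
  rw [add_comm, Function.iterate_add_apply, hx, h]

lemma U_succ_le (n : ℕ) (v : Ω) : U k (n + 1) v ≤ U k n v := by
  intro σ hσ
  refine ⟨hσ.1, fun x hx => ?_⟩
  obtain ⟨y, hy⟩ := exists_iter 1 x
  have h1 : σ y = y := hσ.2 y (by rw [Function.iterate_add_apply, hy, hx])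
  rw [← hy, map_iter, h1]

lemma U_conj {n : ℕ} {v : Ω} {σ τ : Aut k Ω} (hσ : σ ∈ U k n v) (hτ : τ ∈ St k v) :
    τ * σ * τ⁻¹ ∈ U k n v := by
  refine ⟨(inferInstance : (Γ k Ω).Normal).conj_mem σ hσ.1 τ, fun x hx => ?_⟩
  have h1 : f^[n] (τ⁻¹ x) = v := by
    rw [← map_iter, hx]
    exact inv_fix τ hτ.2
  show τ (σ (τ⁻¹ x)) = x
  rw [hσ.2 _ h1]
  show (τ * τ⁻¹) x = x
  rw [mul_inv_cancel]; rfl

variable (k) in
/-- `v` and `1 + v` are independent modulo squares over the fixed field of the stabilizer -/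
def Good (v : Ω) : Prop :=
  (∃ σ ∈ St k v, κ 1 v σ = -1 ∧ κ 1 (1 + v) σ = 1) ∧
    (∃ σ ∈ St k v, κ 1 v σ = 1 ∧ κ 1 (1 + v) σ = -1)

lemma κ_z (m : ℕ) (σ : Aut k Ω) : κ m (0 : Ω) σ = 0 := by
  unfold κ
  have h : rt m (0 : Ω) = 0 := by
    have := rt_pow m (0 : Ω)
    exact pow_eq_zero_iff (pow_pos two_pos m).ne' |>.mp this
  rw [h]; simp

lemma Good.ne {v : Ω} (h : Good k v) : v ≠ 0 := by
  rintro rfl
  obtain ⟨⟨σ, -, h1, -⟩, -⟩ := h
  rw [κ_z] at h1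
  exact one_ne_zero (neg_eq_zero.mp h1.symm)

lemma Good.ne' {v : Ω} (h : Good k v) : 1 + v ≠ 0 := by
  intro h0
  obtain ⟨⟨σ, -, -, h1⟩, -⟩ := h
  rw [h0, κ_z] at h1
  exact zero_ne_one h1

lemma child_ne {u v : Ω} (h : Good k v) (hu : u ^ 2 = 1 + v) : u ≠ 0 := by
  rintro rfl
  apply h.ne'
  rw [← hu]; ring

lemma child_mul {u v : Ω} (hu : u ^ 2 = 1 + v) : (1 + u) * (1 - u) = -v := by
  linear_combination -hu

lemma child_ne1 {u v : Ω} (h : Good k v) (hu : u ^ 2 = 1 + v) : 1 + u ≠ 0 := by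
  intro h0
  have := child_mul hu
  rw [h0, zero_mul] at this
  exact h.ne (neg_eq_zero.mp this.symm)

lemma child_ne2 {u v : Ω} (h : Good k v) (hu : u ^ 2 = 1 + v) : 1 - u ≠ 0 := by
  intro h0
  have := child_mul hu
  rw [h0, mul_zero] at this
  exact h.ne (neg_eq_zero.mp this.symm)

lemma κ_prod {u v : Ω} (h : Good k v) (hu : u ^ 2 = 1 + v) {m : ℕ} {σ : Aut k Ω}
    (hσ : σ ∈ Γ k Ω) : κ m (1 + u) σ * κ m (1 - u) σ = κ m v σ := by
  rw [← κ_mulv hσ (child_ne1 h hu) (child_ne2 h hu), child_mul hu, κ_neg hσ h.ne]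

lemma κ_child {u v : Ω} (h : Good k v) (hu : u ^ 2 = 1 + v) {m : ℕ} {σ : Aut k Ω}
    (hσ : σ ∈ Γ k Ω) : κ (m + 1) (1 + v) σ = κ m u σ := by
  rw [← hu, κ_sq hσ (child_ne h hu)]

variable (k) in
/-- simultaneous values of the quadratic symbols -/
def Tri (u a b c : Ω) : Prop :=
  ∃ σ ∈ St k u, κ 1 u σ = a ∧ κ 1 (1 + u) σ = b ∧ κ 1 (1 - u) σ = c

lemma Tri.mul {u a b c a' b' c' : Ω} (h0 : u ≠ 0) (h1 : 1 + u ≠ 0) (h2 : 1 - u ≠ 0)
    (h : Tri k u a b c) (h' : Tri k u a' b' c') : Tri k u (a * a') (b * b') (c * c') := by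
  obtain ⟨σ, hσ, e1, e2, e3⟩ := h
  obtain ⟨τ, hτ, e4, e5, e6⟩ := h'
  refine ⟨σ * τ, (St k u).mul_mem hσ hτ, ?_, ?_, ?_⟩
  · rw [κ_mul hσ hτ h0, e1, e4]
  · rw [κ_mul (St_one_add hσ) (St_one_add hτ) h1, e2, e5]
  · rw [κ_mul (St_one_sub hσ) (St_one_sub hτ) h2, e3, e6]

lemma fix_of_κ {u v : Ω} (h : 1 + v ≠ 0) (hu : u ^ 2 = 1 + v) {σ : Aut k Ω}
    (hσ : σ ∈ Γ k Ω) : σ u = κ 1 (1 + v) σ * u :=
  κ_eq hσ h (by rw [pow_one]; exact hu)

lemma tri_all {u v : Ω} (h : Good k v) (hu : u ^ 2 = 1 + v) (a b c : Ω)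
    (ha : a = 1 ∨ a = -1) (hb : b = 1 ∨ b = -1) (hc : c = 1 ∨ c = -1) : Tri k u a b c := by
  have h0 := child_ne h hu
  have h1 := child_ne1 h hu
  have h2 := child_ne2 h hu
  have hv := h.ne
  have hv' := h.ne'
  obtain ⟨⟨g, hg, e1, e2⟩, ⟨s, hs, e3, e4⟩⟩ := id h
  have hgu : g u = u := by rw [fix_of_κ hv' hu hg.1, e2, one_mul]
  have hsu : s u = -u := by rw [fix_of_κ hv' hu hs.1, e4]; ring
  have hgm : g ∈ St k u := ⟨hg.1, hgu⟩
  have hs' : s⁻¹ u = -u := by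
    have : s (-u) = u := by rw [map_neg, hsu, neg_neg]
    calc s⁻¹ u = s⁻¹ (s (-u)) := by rw [this]
      _ = (s⁻¹ * s) (-u) := rfl
      _ = -u := by rw [inv_mul_cancel]; rfl
  -- the square of `s`
  have hs2 : s ^ 2 ∈ St k u := by
    refine ⟨(Γ k Ω).pow_mem hs.1 2, ?_⟩
    rw [pow_two, AlgEquiv.mul_apply, hsu, map_neg, hsu, neg_neg]
  have c1 : κ 1 u (s ^ 2) = -1 := by
    rw [← κ_child h hu hs2.1, κ_npow (St_one_add hs) hv', κ_succ_sq hs.1 hv', e4]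
  have c2 : κ 1 (1 + u) (s ^ 2) * κ 1 (1 - u) (s ^ 2) = 1 := by
    rw [κ_prod h hu hs2.1, κ_npow hs hv, e3, one_pow]
  have t3 : Tri k u (-1) (κ 1 (1 + u) (s ^ 2)) (κ 1 (1 - u) (s ^ 2)) := ⟨_, hs2, c1, rfl, rfl⟩
  -- the element `g` and its conjugate
  have d2 : κ 1 (1 + u) g * κ 1 (1 - u) g = -1 := by
    rw [κ_prod h hu hgm.1, e1]
  have t1 : Tri k u (κ 1 u g) (κ 1 (1 + u) g) (κ 1 (1 - u) g) := ⟨g, hgm, rfl, rfl, rfl⟩
  have hcm : s * g * s⁻¹ ∈ St k u := by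
    refine ⟨(inferInstance : (Γ k Ω).Normal).conj_mem g hg.1 s, ?_⟩
    show s (g (s⁻¹ u)) = u
    rw [hs', map_neg, hgu, map_neg, hsu, neg_neg]
  have t2 : Tri k u (κ 1 u g) (κ 1 (1 - u) g) (κ 1 (1 + u) g) := by
    refine ⟨_, hcm, ?_, ?_, ?_⟩
    · rw [← κ_neg hcm.1 h0, ← hsu]
      exact κ_conj_Γ hs.1 hgm h0
    · have := κ_conj_Γ (m := 1) hs.1 (St_one_sub hgm) h2
      rwa [map_sub, map_one, hsu, sub_neg_eq_add] at this
    · have := κ_conj_Γ (m := 1) hs.1 (St_one_add hgm) h1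
      rwa [map_add, map_one, hsu, ← sub_eq_add_neg] at this
  have one : Tri k u 1 1 1 := ⟨1, (St k u).one_mem, κ_one h0, κ_one h1, κ_one h2⟩
  have E : Tri k u (-1) 1 1 := by
    have y1 := κ_one_cases (St_one_add hs2).2 h1
    rcases y1 with y1 | y1
    · rw [y1, one_mul] at c2
      rw [y1, c2] at t3
      exact t3
    · rw [y1] at c2
      have y2 : κ 1 (1 - u) (s ^ 2) = -1 := by linear_combination -c2
      rw [y1, y2] at t3
      have := Tri.mul h0 h1 h2 t3 (Tri.mul h0 h1 h2 t1 t2)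
      have x2 : κ 1 u g * κ 1 u g = 1 := by
        rcases κ_one_cases hgm.2 h0 with x | x <;> rw [x] <;> ring
      rw [x2, mul_comm (κ 1 (1 - u) g), d2] at this
      simpa using this
  have F : Tri k u 1 1 (-1) ∧ Tri k u 1 (-1) 1 := by
    have base : ∀ x : Ω, (x = 1 ∨ x = -1) → Tri k u x 1 (-1) → Tri k u 1 1 (-1) := by
      intro x hx ht
      rcases hx with rfl | rfl
      · exact ht
      · simpa using Tri.mul h0 h1 h2 ht E
    have base' : ∀ x : Ω, (x = 1 ∨ x = -1) → Tri k u x (-1) 1 → Tri k u 1 (-1) 1 := by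
      intro x hx ht
      rcases hx with rfl | rfl
      · exact ht
      · simpa using Tri.mul h0 h1 h2 ht E
    have hx := κ_one_cases hgm.2 h0
    rcases κ_one_cases (St_one_add hgm).2 h1 with y | y
    · rw [y, one_mul] at d2
      rw [y, d2] at t1 t2
      exact ⟨base _ hx t1, base' _ hx t2⟩
    · rw [y] at d2
      have y2 : κ 1 (1 - u) g = 1 := by linear_combination -d2
      rw [y, y2] at t1 t2
      exact ⟨base _ hx t2, base' _ hx t1⟩
  have hA : Tri k u a 1 1 := by rcases ha with rfl | rfl; exacts [one, E]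
  have hB : Tri k u 1 b 1 := by rcases hb with rfl | rfl; exacts [one, F.2]
  have hC : Tri k u 1 1 c := by rcases hc with rfl | rfl; exacts [one, F.1]
  simpa using Tri.mul h0 h1 h2 hA (Tri.mul h0 h1 h2 hB hC)

lemma κ_two_pow {v : Ω} {σ : Aut k Ω} (hσ : σ ∈ Γ k Ω) (hv : v ≠ 0) (m : ℕ) :
    κ (m + 1) v σ ^ (2 ^ m) = κ 1 v σ := by
  induction m with
  | zero => simp
  | succ m ih =>
    rw [pow_succ', pow_mul, κ_succ_sq hσ hv, ih]

/-- the Kummer symbols at a child of a good vertex take all values -/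
lemma surj {u v : Ω} (h : Good k v) (hu : u ^ 2 = 1 + v) (m : ℕ) : ∀ a b c : Ω,
    a ^ (2 ^ m) = 1 → b ^ (2 ^ m) = 1 → c ^ (2 ^ m) = 1 →
    ∃ σ ∈ St k u, κ m u σ = a ∧ κ m (1 + u) σ = b ∧ κ m (1 - u) σ = c := by
  have h0 := child_ne h hu
  have h1 := child_ne1 h hu
  have h2 := child_ne2 h hu
  induction m with
  | zero =>
    intro a b c ha hb hc
    simp only [pow_zero, pow_one] at ha hb hc
    subst ha hb hc
    exact ⟨1, (St k u).one_mem, κ_one h0, κ_one h1, κ_one h2⟩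
  | succ m ih =>
    intro a b c ha hb hc
    obtain ⟨σ, hσ, e1, e2, e3⟩ := ih (a ^ 2) (b ^ 2) (c ^ 2)
      (by rw [← pow_mul, ← pow_succ', ha]) (by rw [← pow_mul, ← pow_succ', hb])
      (by rw [← pow_mul, ← pow_succ', hc])
    rw [← κ_succ_sq hσ.1 h0] at e1
    rw [← κ_succ_sq hσ.1 h1] at e2
    rw [← κ_succ_sq hσ.1 h2] at e3
    have sg : ∀ x y : Ω, x ^ 2 = y ^ 2 → ∃ e : Ω, (e = 1 ∨ e = -1) ∧ y = x * e := by
      intro x y hxy
      have : (y - x) * (y + x) = 0 := by linear_combination -hxy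
      rcases mul_eq_zero.mp this with h | h
      · exact ⟨1, Or.inl rfl, by linear_combination h⟩
      · exact ⟨-1, Or.inr rfl, by linear_combination h⟩
    obtain ⟨ea, hea, ra⟩ := sg _ _ e1
    obtain ⟨eb, heb, rb⟩ := sg _ _ e2
    obtain ⟨ec, hec, rc⟩ := sg _ _ e3
    obtain ⟨τ, hτ, t1, t2, t3⟩ := tri_all h hu ea eb ec hea heb hec
    have hτm : τ ^ (2 ^ m) ∈ St k u := (St k u).pow_mem hτ _
    refine ⟨σ * τ ^ (2 ^ m), (St k u).mul_mem hσ hτm, ?_, ?_, ?_⟩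
    · rw [κ_mul hσ hτm h0, κ_npow hτ h0, κ_two_pow hτ.1 h0, t1, ← ra]
    · rw [κ_mul (St_one_add hσ) (St_one_add hτm) h1, κ_npow (St_one_add hτ) h1,
        κ_two_pow hτ.1 h1, t2, ← rb]
    · rw [κ_mul (St_one_sub hσ) (St_one_sub hτm) h2, κ_npow (St_one_sub hτ) h2,
        κ_two_pow hτ.1 h2, t3, ← rc]

lemma Good.child {u v : Ω} (h : Good k v) (hu : u ^ 2 = 1 + v) : Good k u := by
  obtain ⟨σ, hσ, e1, e2, -⟩ := tri_all h hu (-1) 1 1 (Or.inr rfl) (Or.inl rfl) (Or.inl rfl)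
  obtain ⟨τ, hτ, e3, e4, -⟩ := tri_all h hu 1 (-1) 1 (Or.inl rfl) (Or.inr rfl) (Or.inl rfl)
  exact ⟨⟨σ, hσ, e1, e2⟩, ⟨τ, hτ, e3, e4⟩⟩

lemma neg_child {u v : Ω} (hu : u ^ 2 = 1 + v) : (-u) ^ 2 = 1 + v := by rw [neg_sq, hu]

lemma Good.child_neg {u v : Ω} (h : Good k v) (hu : u ^ 2 = 1 + v) : Good k (-u) :=
  h.child (neg_child hu)

lemma Good.iter {n : ℕ} : ∀ {w v : Ω}, Good k v → f^[n] w = v → Good k w := by
  induction n with
  | zero =>
    intro w v h hw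
    have e : w = v := hw
    rw [e]; exact h
  | succ n ih =>
    intro w v h hw
    rw [Function.iterate_succ_apply'] at hw
    refine ih (h.child (u := f^[n] w) ?_) rfl
    rw [← hw]; unfold f; ring

/-- elements acting trivially up to level `n` have trivial symbols -/
lemma Ukill (n : ℕ) : ∀ {v : Ω} {σ : Aut k Ω}, Good k v → σ ∈ U k n v →
    κ (n / 2) v σ = 1 ∧ κ ((n + 1) / 2) (1 + v) σ = 1 := by
  induction n with
  | zero =>
    intro v σ h hσ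
    rw [U_zero] at hσ
    exact ⟨κ_zero hσ h.ne, κ_zero (St_one_add hσ) h.ne'⟩
  | succ n ih =>
    intro v σ h hσ
    obtain ⟨u, hu⟩ := exists_child v
    rw [U_succ hu, Subgroup.mem_inf] at hσ
    obtain ⟨h1, h2⟩ := ih (h.child hu) hσ.1
    obtain ⟨h3, h4⟩ := ih (h.child_neg hu) hσ.2
    constructor
    · rw [← κ_prod h hu hσ.1.1, h2, one_mul, sub_eq_add_neg, h4]
    · rw [show (n + 1 + 1) / 2 = n / 2 + 1 by omega, κ_child h hu hσ.1.1, h1]

end Q280.Basilica
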