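import Mathlib

set_option autoImplicit false

/-!
# Group theoretic lemmas: nilpotent quotients and commutators
-/

namespace Q280.Basilica.Grp

open Subgroup
open scoped commutatorElement

variable {A M : Type*} [Group A] [CommGroup M]

/-- if the kernel of a homomorphism to a cyclic group is central modulo `D`, then commutators
lie in `D` -/
lemma comm_le [IsCyclic M] (χ : A →* M) (D : Subgroup A) [D.Normal] (hD : D ≤ χ.ker)
    (hE : ⁅χ.ker, (⊤ : Subgroup A)⁆ ≤ D) : ⁅(⊤ : Subgroup A), ⊤⁆ ≤ D := by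
  rw [commutator_le]
  intro a _ b _
  let φ : A ⧸ D →* M := QuotientGroup.lift D χ (fun x hx => hD hx)
  have hker : φ.ker ≤ center (A ⧸ D) := by
    intro x hx
    obtain ⟨x, rfl⟩ := QuotientGroup.mk_surjective x
    have hx' : χ x = 1 := hx
    rw [mem_center_iff]
    intro y
    obtain ⟨y, rfl⟩ := QuotientGroup.mk_surjective y
    have h1 : ⁅x, y⁆ ∈ D := hE (commutator_mem_commutator (MonoidHom.mem_ker.mpr hx') (mem_top y))
    rw [← QuotientGroup.mk_mul, ← QuotientGroup.mk_mul, QuotientGroup.eq]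
    have h2 : (y * x)⁻¹ * (x * y) = x⁻¹ * y⁻¹ * (⁅x, y⁆) * (y * x) := by
      rw [commutatorElement_def]; group
    have h3 : x⁻¹ * y⁻¹ = (y * x)⁻¹ := by group
    rw [h2, h3]
    have := (‹D.Normal›).conj_mem _ h1 ((y * x)⁻¹)
    simpa using this
  have hcomm := MonoidHom.isMulCommutative_of_isCyclic_of_ker_le_center φ hker
  have h : (QuotientGroup.mk a : A ⧸ D) * QuotientGroup.mk b =
      QuotientGroup.mk b * QuotientGroup.mk a := hcomm.is_comm.comm _ _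
  rw [← QuotientGroup.mk_mul, ← QuotientGroup.mk_mul, QuotientGroup.eq] at h
  have h2 := (‹D.Normal›).conj_mem _ h (b * a)
  rw [commutatorElement_def]
  have h3 : b * a * ((a * b)⁻¹ * (b * a)) * (b * a)⁻¹ = (a * b * a⁻¹ * b⁻¹)⁻¹ := by group
  rw [h3] at h2
  exact (inv_mem_iff).mp h2

/-- commutators with the whole group -/
lemma comm_sup_le (N₁ N₂ X : Subgroup A) [X.Normal] (h1 : ⁅N₁, (⊤ : Subgroup A)⁆ ≤ X)
    (h2 : ⁅N₂, (⊤ : Subgroup A)⁆ ≤ X) [N₂.Normal] : ⁅N₁ ⊔ N₂, (⊤ : Subgroup A)⁆ ≤ X := by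
  rw [commutator_le]
  intro g hg h _
  rw [mem_sup_of_normal_right] at hg
  obtain ⟨a, ha, b, hb, rfl⟩ := hg
  have e : ⁅a * b, h⁆ = (a * ⁅b, h⁆ * a⁻¹) * ⁅a, h⁆ := by
    simp only [commutatorElement_def]; group
  rw [e]
  refine X.mul_mem ((‹X.Normal›).conj_mem _ (h2 (commutator_mem_commutator hb (mem_top h))) a) ?_
  exact h1 (commutator_mem_commutator ha (mem_top h))

/-- the main consequence of nilpotency -/
lemma ker_le [IsCyclic M] (χ : A →* M) (N : Subgroup A) [N.Normal] (hN : N ≤ χ.ker)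
    (ha : χ.ker ≤ ⁅(⊤ : Subgroup A), ⊤⁆ ⊔ N) (hnil : ∃ k, (⊤ : Subgroup A).lowerCentralSeries k ≤ N) :
    χ.ker ≤ N := by
  have key : ∀ k, χ.ker ≤ (⊤ : Subgroup A).lowerCentralSeries k ⊔ N := by
    intro k
    induction k with
    | zero => simp
    | succ k ih =>
      have hX : ((⊤ : Subgroup A).lowerCentralSeries (k + 1) ⊔ N).Normal := by infer_instance
      have h1 : ⁅χ.ker, (⊤ : Subgroup A)⁆ ≤ (⊤ : Subgroup A).lowerCentralSeries (k + 1) ⊔ N := by
        refine (commutator_mono ih le_rfl).trans ?_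
        apply comm_sup_le
        · exact le_sup_of_le_left le_rfl
        · exact le_sup_of_le_right (commutator_le_left N (⊤ : Subgroup A))
      have h2 : ⁅(⊤ : Subgroup A), ⊤⁆ ≤ ⁅χ.ker, (⊤ : Subgroup A)⁆ ⊔ N := by
        apply comm_le χ
        · exact sup_le (commutator_le_left χ.ker (⊤ : Subgroup A)) hN
        · exact le_sup_left
      refine ha.trans (sup_le (h2.trans (sup_le h1 le_sup_right)) le_sup_right)
  obtain ⟨k, hk⟩ := hnil
  exact (key k).trans (sup_le hk le_rfl)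

/-- the modular law used for the fibre product -/
lemma inf_le (N₁ N₂ : Subgroup A) [N₁.Normal] [N₂.Normal]
    (h : ⁅(⊤ : Subgroup A), ⊤⁆ ≤ ⁅N₁ ⊔ N₂, (⊤ : Subgroup A)⁆) :
    (⁅(⊤ : Subgroup A), ⊤⁆ ⊔ N₁) ⊓ (⁅(⊤ : Subgroup A), ⊤⁆ ⊔ N₂) ≤
      ⁅(⊤ : Subgroup A), ⊤⁆ ⊔ (N₁ ⊓ N₂) := by
  set C : Subgroup A := ⁅(⊤ : Subgroup A), (⊤ : Subgroup A)⁆ with hC
  have hCn : C.Normal := by rw [hC]; infer_instance
  intro x hx
  rw [mem_inf] at hx
  obtain ⟨hx1, hx2⟩ := hx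
  rw [mem_sup_of_normal_right] at hx1 hx2
  obtain ⟨c1, hc1, n1, hn1, rfl⟩ := hx1
  obtain ⟨c2', hc2', n2', hn2', he⟩ := hx2
  -- n1 = c2 n2
  have hn1' : n1 = (c1⁻¹ * c2') * n2' := by
    have : c2' * n2' = c1 * n1 := he
    calc n1 = c1⁻¹ * (c1 * n1) := by group
      _ = c1⁻¹ * (c2' * n2') := by rw [this]
      _ = _ := by group
  set c2 := c1⁻¹ * c2' with hc2def
  have hc2 : c2 ∈ C := C.mul_mem (C.inv_mem hc1) hc2'
  have hle : C ≤ (N₁ ⊓ C) ⊔ (N₂ ⊓ C) := by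
    refine h.trans ?_
    apply comm_sup_le
    · refine le_sup_of_le_left (le_inf (commutator_le_left _ _) ?_)
      exact commutator_mono le_top le_rfl
    · refine le_sup_of_le_right (le_inf (commutator_le_left _ _) ?_)
      exact commutator_mono le_top le_rfl
  have hd := hle hc2
  rw [mem_sup_of_normal_right] at hd
  obtain ⟨d1, hd1, d2, hd2, hd⟩ := hd
  have hcn : n1 = d1 * (d2 * n2') := by
    rw [hn1', ← hd]; group
  have h3 : d1⁻¹ * n1 ∈ N₁ ⊓ N₂ := by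
    refine ⟨N₁.mul_mem (N₁.inv_mem hd1.1) hn1, ?_⟩
    have : d1⁻¹ * n1 = d2 * n2' := by rw [hcn]; group
    rw [this]
    exact N₂.mul_mem hd2.1 hn2'
  have h4 : c1 * n1 = (c1 * d1) * (d1⁻¹ * n1) := by group
  rw [h4]
  exact mul_mem_sup (C.mul_mem hc1 hd1.2) h3

end Q280.Basilica.Grp
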