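import Pool.Agent.Q280.Basilica.Good
import Pool.Agent.Q280.Basilica.Grp

set_option autoImplicit false

/-!
# The commutator quotient of the tree groups
-/

namespace Q280.Basilica

open Subgroup

variable {k Ω : Type*} [Field k] [Field Ω] [Algebra k Ω] [IsAlgClosed Ω]

section Conv

variable {G : Type*} [Group G]

lemma mem_conv {H K : Subgroup G} (hK : K ≤ H) {σ : G} (hσ : σ ∈ H) :
    σ ∈ ⁅H, H⁆ ⊔ K ↔ (⟨σ, hσ⟩ : H) ∈ ⁅(⊤ : Subgroup H), (⊤ : Subgroup H)⁆ ⊔ K.subgroupOf H := by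
  have e : (⁅(⊤ : Subgroup H), (⊤ : Subgroup H)⁆ ⊔ K.subgroupOf H).map H.subtype = ⁅H, H⁆ ⊔ K := by
    rw [Subgroup.map_sup, Subgroup.map_commutator, subgroupOf_map_subtype, inf_eq_left.mpr hK]
    have : (⊤ : Subgroup H).map H.subtype = H := by
      rw [← MonoidHom.range_eq_map, Subgroup.range_subtype]
    rw [this]
  rw [← e, Subgroup.mem_map]
  constructor
  · rintro ⟨x, hx, hxe⟩
    have : x = ⟨σ, hσ⟩ := Subtype.ext hxe
    rwa [← this]
  · intro h
    exact ⟨_, h, rfl⟩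

end Conv

/-- the tree above `v` is finite up to every level -/
lemma finite_level (n : ℕ) : ∀ v : Ω, {x : Ω | f^[n] x = v}.Finite := by
  induction n with
  | zero => intro v; simp
  | succ n ih =>
    intro v
    obtain ⟨u, hu⟩ := exists_child v
    refine ((ih u).union (ih (-u))).subset ?_
    intro x hx
    rw [Set.mem_ofPred_eq, Function.iterate_succ_apply'] at hx
    have h4 : (f^[n] x - u) * (f^[n] x + u) = 0 := by
      unfold f at hx ⊢
      linear_combination hx - hu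
    rcases mul_eq_zero.mp h4 with h | h
    · left; rw [Set.mem_ofPred_eq]; linear_combination h
    · right; rw [Set.mem_ofPred_eq]; linear_combination h

lemma pow_mem_U (n : ℕ) : ∀ {v : Ω} {σ : Aut k Ω}, σ ∈ St k v → σ ^ (2 ^ n) ∈ U k n v := by
  induction n with
  | zero =>
    intro v σ hσ
    rw [U_zero]
    simpa using hσ
  | succ n ih =>
    intro v σ hσ
    obtain ⟨u, hu⟩ := exists_child v
    have h1 : σ u = u ∨ σ u = -u := by
      have h2 : (σ u) ^ 2 = u ^ 2 := by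
        rw [← map_pow, hu, map_add, map_one, hσ.2]
      have h3 : (σ u - u) * (σ u + u) = 0 := by linear_combination h2
      rcases mul_eq_zero.mp h3 with h | h
      · left; linear_combination h
      · right; linear_combination h
    have h2 : σ ^ 2 ∈ St k u := by
      refine ⟨(Γ k Ω).pow_mem hσ.1 2, ?_⟩
      rw [pow_two, AlgEquiv.mul_apply]
      rcases h1 with h | h
      · rw [h, h]
      · rw [h, map_neg, h, neg_neg]
    rw [U_succ hu, mem_inf, pow_succ', pow_mul]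
    refine ⟨ih h2, ih ?_⟩
    rw [St_neg]; exact h2

instance normal_U (n : ℕ) (v : Ω) : ((U k n v).subgroupOf (St k v)).Normal where
  conj_mem := by
    intro σ hσ τ
    rw [mem_subgroupOf] at hσ ⊢
    exact U_conj hσ τ.2

lemma normal_U' {n : ℕ} {u : Ω} : ((U k n (-u)).subgroupOf (St k u)).Normal where
  conj_mem := by
    intro σ hσ τ
    rw [mem_subgroupOf] at hσ ⊢
    apply U_conj hσ
    rw [St_neg]; exact τ.2

lemma finiteIndex_U (n : ℕ) (v : Ω) : ((U k n v).subgroupOf (St k v)).FiniteIndex := by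
  have hfin : Finite {x : Ω | f^[n] x = v} := (finite_level n v).to_subtype
  have hle : (⨅ x : {x : Ω | f^[n] x = v}, MulAction.stabilizer (St k v) (x : Ω)) ≤
      (U k n v).subgroupOf (St k v) := by
    intro σ hσ
    rw [mem_iInf] at hσ
    rw [mem_subgroupOf]
    refine ⟨σ.2.1, fun x hx => ?_⟩
    exact MulAction.mem_stabilizer_iff.mp (hσ ⟨x, hx⟩)
  have h1 : (⨅ x : {x : Ω | f^[n] x = v}, MulAction.stabilizer (St k v) (x : Ω)).FiniteIndex := by
    apply finiteIndex_iInf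
    intro x
    constructor
    rw [MulAction.index_stabilizer]
    have hsub : MulAction.orbit (St k v) (x : Ω) ⊆ {x : Ω | f^[n] x = v} := by
      rintro y ⟨σ, rfl⟩
      show f^[n] ((σ : Aut k Ω) (x : Ω)) = v
      rw [← map_iter, x.2]
      exact σ.2.2
    have hf : (MulAction.orbit (St k v) (x : Ω)).Finite := (finite_level n v).subset hsub
    exact ((Set.ncard_pos hf).mpr (MulAction.nonempty_orbit _)).ne'
  exact finiteIndex_of_le hle

lemma nil_U (n : ℕ) (v : Ω) :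
    ∃ j, (⊤ : Subgroup (St k v)).lowerCentralSeries j ≤ (U k n v).subgroupOf (St k v) := by
  set N := (U k n v).subgroupOf (St k v) with hN
  have h1 : N.FiniteIndex := finiteIndex_U n v
  have h2 : Finite (St k v ⧸ N) := finite_quotient_of_finiteIndex
  have hp : IsPGroup 2 (St k v ⧸ N) := by
    intro g
    obtain ⟨g, rfl⟩ := QuotientGroup.mk_surjective g
    refine ⟨n, ?_⟩
    rw [← QuotientGroup.mk_pow, QuotientGroup.eq_one_iff, hN, mem_subgroupOf]
    exact pow_mem_U n g.2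
  have hnil := hp.isNilpotent
  obtain ⟨j, hj⟩ := Subgroup.nilpotent_iff_lowerCentralSeries.mp hnil
  refine ⟨j, ?_⟩
  have h3 := map_lowerCentralSeries (S := (⊤ : Subgroup (St k v))) (QuotientGroup.mk' N) j
  have h4 : (⊤ : Subgroup (St k v)).map (QuotientGroup.mk' N) = ⊤ :=
    Subgroup.map_top_of_surjective _ (QuotientGroup.mk'_surjective N)
  rw [h4, hj, Subgroup.map_eq_bot_iff, QuotientGroup.ker_mk'] at h3
  exact h3

/-- the Kummer character -/
noncomputable def χ (m : ℕ) (v : Ω) (hv : v ≠ 0) : St k v →* rootsOfUnity (2 ^ m) Ω :=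
  MonoidHom.mk' (fun σ => rootsOfUnity.mkOfPowEq (κ m v (σ : Aut k Ω)) (κ_pow σ.2.2 hv)) (by
    intro a b
    apply Subtype.ext
    apply Units.ext
    simp only [rootsOfUnity.coe_mkOfPowEq, Subgroup.coe_mul, Units.val_mul]
    exact κ_mul a.2 b.2 hv)

lemma mem_ker_χ {m : ℕ} {v : Ω} {hv : v ≠ 0} {σ : St k v} :
    σ ∈ (χ m v hv).ker ↔ κ m v (σ : Aut k Ω) = 1 := by
  rw [MonoidHom.mem_ker]
  constructor
  · intro h
    have := congrArg (fun x : rootsOfUnity (2 ^ m) Ω => ((x : Ωˣ) : Ω)) h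
    simpa [χ] using this
  · intro h
    apply Subtype.ext
    apply Units.ext
    simpa [χ] using h

variable (k Ω) in
/-- the description of the commutator quotient at level `n` -/
def Hyp (n : ℕ) : Prop := ∀ v : Ω, Good k v → ∀ σ ∈ St k v, κ (n / 2) v σ = 1 →
  κ ((n + 1) / 2) (1 + v) σ = 1 → σ ∈ ⁅St k v, St k v⁆ ⊔ U k n v

/-- the two subgroups at a child generate the kernel of the common character -/
lemma gen_aux {u v : Ω} (h : Good k v) (hu : u ^ 2 = 1 + v) {n₁ n₂ : ℕ} (H₁ : Hyp k Ω n₁)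
    (H₂ : Hyp k Ω n₂) (hle : n₂ / 2 ≤ n₁ / 2) {σ : Aut k Ω} (hσ : σ ∈ St k u)
    (hκ : κ (n₂ / 2) u σ = 1) : σ ∈ U k n₁ u ⊔ U k n₂ (-u) := by
  have h0 := child_ne h hu
  have h1 := child_ne1 h hu
  have h2 := child_ne2 h hu
  set N₁ := (U k n₁ u).subgroupOf (St k u) with hN₁
  set N₂ := (U k n₂ (-u)).subgroupOf (St k u) with hN₂
  have i2 : N₂.Normal := normal_U'
  have i1 : N₁.Normal := normal_U n₁ u
  have hU1 : U k n₁ u ≤ St k u := U_le_St n₁ u
  have hU2 : U k n₂ (-u) ≤ St k u := by rw [← St_neg]; exact U_le_St n₂ (-u)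
  have hN : N₁ ⊔ N₂ ≤ (χ (k := k) (n₂ / 2) u h0).ker := by
    apply sup_le
    · intro τ hτ
      rw [mem_ker_χ]
      rw [hN₁, mem_subgroupOf] at hτ
      exact κ_mono (Ukill n₁ (h.child hu) hτ).1 hle hτ.1 h0
    · intro τ hτ
      rw [mem_ker_χ]
      rw [hN₂, mem_subgroupOf] at hτ
      rw [← κ_neg hτ.1 h0]
      exact (Ukill n₂ (h.child_neg hu) hτ).1
  have ha : (χ (k := k) (n₂ / 2) u h0).ker ≤
      ⁅(⊤ : Subgroup (St k u)), (⊤ : Subgroup (St k u))⁆ ⊔ (N₁ ⊔ N₂) := by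
    intro τ hτ
    rw [mem_ker_χ] at hτ
    -- a large level
    set M := (n₁ + 1) + (n₂ + 1) with hM
    have hτs := τ.2
    obtain ⟨g, hg, e1, e2, e3⟩ := surj h hu M 1 1 (κ M (1 - u) (τ : Aut k Ω)) (one_pow _)
      (one_pow _) (κ_pow (St_one_sub hτs).2 h2)
    have m1 : g ∈ ⁅St k u, St k u⁆ ⊔ U k n₁ u := by
      apply H₁ u (h.child hu) g hg
      · exact κ_mono e1 (by omega) hg.1 h0
      · exact κ_mono e2 (by omega) hg.1 h1
    have m2 : (τ : Aut k Ω) * g⁻¹ ∈ ⁅St k u, St k u⁆ ⊔ U k n₂ (-u) := by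
      have hmem : (τ : Aut k Ω) * g⁻¹ ∈ St k u := (St k u).mul_mem hτs ((St k u).inv_mem hg)
      have := H₂ (-u) (h.child_neg hu) ((τ : Aut k Ω) * g⁻¹) (by rw [St_neg]; exact hmem) ?_ ?_
      · rwa [St_neg] at this
      · rw [κ_neg hmem.1 h0, κ_mul hτs ((St k u).inv_mem hg) h0, hτ, κ_inv hg h0,
          κ_mono e1 (by omega) hg.1 h0]
        simp
      · rw [← sub_eq_add_neg, κ_mul (St_one_sub hτs) (St_one_sub ((St k u).inv_mem hg)) h2,
          κ_inv (St_one_sub hg) h2]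
        have e4 : κ ((n₂ + 1) / 2) (1 - u) ((τ : Aut k Ω) * g⁻¹) = 1 := by
          apply κ_mono (m := M) _ (by omega) hmem.1 h2
          rw [κ_mul (St_one_sub hτs) (St_one_sub ((St k u).inv_mem hg)) h2,
            κ_inv (St_one_sub hg) h2, e3]
          exact mul_inv_cancel₀ (κ_ne h2)
        rwa [κ_mul (St_one_sub hτs) (St_one_sub ((St k u).inv_mem hg)) h2,
            κ_inv (St_one_sub hg) h2] at e4
    have m1' := (mem_conv hU1 hg).mp m1
    have hmem : (τ : Aut k Ω) * g⁻¹ ∈ St k u := (St k u).mul_mem hτs ((St k u).inv_mem hg)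
    have m2' := (mem_conv hU2 hmem).mp m2
    have e : τ = (⟨(τ : Aut k Ω) * g⁻¹, hmem⟩ : St k u) * ⟨g, hg⟩ := by
      apply Subtype.ext
      simp
    have l2 : ⁅(⊤ : Subgroup (St k u)), (⊤ : Subgroup (St k u))⁆ ⊔ N₂ ≤
        ⁅(⊤ : Subgroup (St k u)), (⊤ : Subgroup (St k u))⁆ ⊔ (N₁ ⊔ N₂) :=
      sup_le_sup_left le_sup_right _
    have l1 : ⁅(⊤ : Subgroup (St k u)), (⊤ : Subgroup (St k u))⁆ ⊔ N₁ ≤
        ⁅(⊤ : Subgroup (St k u)), (⊤ : Subgroup (St k u))⁆ ⊔ (N₁ ⊔ N₂) :=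
      sup_le_sup_left le_sup_left _
    rw [e]
    exact mul_mem (l2 m2') (l1 m1')
  have hnil : ∃ j, (⊤ : Subgroup (St k u)).lowerCentralSeries j ≤ N₁ ⊔ N₂ := by
    obtain ⟨j, hj⟩ := nil_U (k := k) n₁ u
    exact ⟨j, hj.trans le_sup_left⟩
  have key := Grp.ker_le (χ (k := k) (n₂ / 2) u h0) (N₁ ⊔ N₂) hN ha hnil
  have hmem : (⟨σ, hσ⟩ : St k u) ∈ N₁ ⊔ N₂ := key (mem_ker_χ.mpr hκ)
  have hmap : (N₁ ⊔ N₂).map (St k u).subtype = U k n₁ u ⊔ U k n₂ (-u) := by
    rw [Subgroup.map_sup, hN₁, hN₂, subgroupOf_map_subtype, subgroupOf_map_subtype,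
      inf_eq_left.mpr hU1, inf_eq_left.mpr hU2]
  rw [← hmap]
  exact ⟨_, hmem, rfl⟩

/-- general form -/
lemma gen {u v : Ω} (h : Good k v) (hu : u ^ 2 = 1 + v) {n₁ n₂ : ℕ} (H₁ : Hyp k Ω n₁)
    (H₂ : Hyp k Ω n₂) {σ : Aut k Ω} (hσ : σ ∈ St k u)
    (hκ : κ (min (n₁ / 2) (n₂ / 2)) u σ = 1) : σ ∈ U k n₁ u ⊔ U k n₂ (-u) := by
  rcases le_total (n₂ / 2) (n₁ / 2) with hle | hle
  · rw [min_eq_right hle] at hκ
    exact gen_aux h hu H₁ H₂ hle hσ hκ
  · rw [min_eq_left hle] at hκ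
    have := gen_aux (u := -u) h (neg_child hu) H₂ H₁ hle (by rw [St_neg]; exact hσ)
      (by rw [κ_neg hσ.1 (child_ne h hu)]; exact hκ)
    rw [neg_neg, sup_comm] at this
    exact this

end Q280.Basilica
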