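import Pool.Agent.Q280.Basilica.Hyp

set_option autoImplicit false

/-!
# The induction for the commutator quotient, and special elements
-/

namespace Q280.Basilica

open Subgroup
open scoped commutatorElement

variable {k Ω : Type*} [Field k] [Field Ω] [Algebra k Ω] [IsAlgClosed Ω]

/-- the commutator quotient of the group at a child -/
lemma fibre {u v : Ω} (h : Good k v) (hu : u ^ 2 = 1 + v) {n : ℕ} (H : Hyp k Ω n)
    {σ : Aut k Ω} (hσ : σ ∈ St k u) (e1 : κ (n / 2) u σ = 1)
    (e2 : κ ((n + 1) / 2) (1 + u) σ = 1) (e3 : κ ((n + 1) / 2) (1 - u) σ = 1) :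
    σ ∈ ⁅St k u, St k u⁆ ⊔ (U k n u ⊓ U k n (-u)) := by
  have h0 := child_ne h hu
  set N₁ := (U k n u).subgroupOf (St k u) with hN₁
  set N₂ := (U k n (-u)).subgroupOf (St k u) with hN₂
  have i2 : N₂.Normal := normal_U'
  have i1 : N₁.Normal := normal_U n u
  have hU1 : U k n u ≤ St k u := U_le_St n u
  have hU2 : U k n (-u) ≤ St k u := by rw [← St_neg]; exact U_le_St n (-u)
  have hker : N₁ ⊔ N₂ = (χ (k := k) (n / 2) u h0).ker := by
    apply le_antisymm
    · apply sup_le
      · intro τ hτ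
        rw [mem_ker_χ]
        rw [hN₁, mem_subgroupOf] at hτ
        exact (Ukill n (h.child hu) hτ).1
      · intro τ hτ
        rw [mem_ker_χ]
        rw [hN₂, mem_subgroupOf] at hτ
        rw [← κ_neg hτ.1 h0]
        exact (Ukill n (h.child_neg hu) hτ).1
    · intro τ hτ
      rw [mem_ker_χ] at hτ
      have hg := gen h hu H H τ.2 (by rw [min_self]; exact hτ)
      have hmap : (N₁ ⊔ N₂).map (St k u).subtype = U k n u ⊔ U k n (-u) := by
        rw [Subgroup.map_sup, hN₁, hN₂, subgroupOf_map_subtype, subgroupOf_map_subtype,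
          inf_eq_left.mpr hU1, inf_eq_left.mpr hU2]
      rw [← hmap] at hg
      obtain ⟨x, hx, hxe⟩ := hg
      have : x = τ := Subtype.ext hxe
      rwa [← this]
  have hcomm : ⁅(⊤ : Subgroup (St k u)), (⊤ : Subgroup (St k u))⁆ ≤
      ⁅N₁ ⊔ N₂, (⊤ : Subgroup (St k u))⁆ := by
    apply Grp.comm_le (χ (k := k) (n / 2) u h0)
    · rw [← hker]
      exact commutator_le_left _ _
    · rw [← hker]
  have key := Grp.inf_le N₁ N₂ hcomm
  have a1 : σ ∈ ⁅St k u, St k u⁆ ⊔ U k n u := by
    exact H u (h.child hu) σ hσ e1 e2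
  have a2 : σ ∈ ⁅St k u, St k u⁆ ⊔ U k n (-u) := by
    have := H (-u) (h.child_neg hu) σ (by rw [St_neg]; exact hσ)
      (by rw [κ_neg hσ.1 h0]; exact e1) (by rw [← sub_eq_add_neg]; exact e3)
    rwa [St_neg] at this
  have a1' := (mem_conv hU1 hσ).mp a1
  have a2' := (mem_conv hU2 hσ).mp a2
  have a3 := key ⟨a1', a2'⟩
  rw [mem_conv (inf_le_left.trans hU1) hσ]
  have e : (U k n u ⊓ U k n (-u)).subgroupOf (St k u) = N₁ ⊓ N₂ := by
    ext x
    simp only [hN₁, hN₂, mem_inf, mem_subgroupOf]
  rw [e]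
  exact a3

/-- the induction step -/
lemma hyp_succ {n : ℕ} (H : Hyp k Ω n) : Hyp k Ω (n + 1) := by
  intro v h σ hσ e1 e2
  obtain ⟨u, hu⟩ := exists_child v
  have h0 := child_ne h hu
  have h1 := child_ne1 h hu
  have h2 := child_ne2 h hu
  have hv' := h.ne'
  -- `σ` fixes `u`
  have e3 : κ 1 (1 + v) σ = 1 := κ_mono e2 (by omega) hσ.1 hv'
  have hσu : σ ∈ St k u := ⟨hσ.1, by rw [fix_of_κ hv' hu hσ.1, e3, one_mul]⟩
  have e4 : κ (n / 2) u σ = 1 := by
    have e2' := e2
    rw [show (n + 1 + 1) / 2 = n / 2 + 1 by omega, κ_child h hu hσ.1] at e2'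
    exact e2'
  have e5 : κ ((n + 1) / 2) (1 + u) σ * κ ((n + 1) / 2) (1 - u) σ = 1 := by
    rw [κ_prod h hu hσ.1, e1]
  set m := (n + 1) / 2 with hm
  set b := κ m (1 + u) σ with hb
  have hbp : b ^ (2 ^ m) = 1 := κ_pow (St_one_add hσu).2 h1
  -- an element swapping `u` and `-u`
  obtain ⟨-, ⟨s, hs, -, hs2⟩⟩ := id h
  have hsu : s u = -u := by rw [fix_of_κ hv' hu hs.1, hs2]; ring
  have hs' : s⁻¹ u = -u := by
    have : s (-u) = u := by rw [map_neg, hsu, neg_neg]
    calc s⁻¹ u = s⁻¹ (s (-u)) := by rw [this]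
      _ = (s⁻¹ * s) (-u) := rfl
      _ = -u := by rw [inv_mul_cancel]; rfl
  obtain ⟨g, hg, -, g2, g3⟩ := surj h hu m 1 1 b (one_pow _) (one_pow _) hbp
  -- the conjugate of `g`
  have hcm : s * g * s⁻¹ ∈ St k u := by
    refine ⟨(inferInstance : (Γ k Ω).Normal).conj_mem g hg.1 s, ?_⟩
    show s (g (s⁻¹ u)) = u
    rw [hs', map_neg, hg.2, map_neg, hsu, neg_neg]
  have c1 : κ (n / 2) u (s * g * s⁻¹) = κ (n / 2) u g := by
    rw [← κ_neg hcm.1 h0, ← hsu]
    exact κ_conj_Γ hs.1 hg h0
  have c2 : κ m (1 + u) (s * g * s⁻¹) = b := by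
    have := κ_conj_Γ (m := m) hs.1 (St_one_sub hg) h2
    rwa [map_sub, map_one, hsu, sub_neg_eq_add, g3] at this
  have c3 : κ m (1 - u) (s * g * s⁻¹) = 1 := by
    have := κ_conj_Γ (m := m) hs.1 (St_one_add hg) h1
    rwa [map_add, map_one, hsu, ← sub_eq_add_neg, g2] at this
  -- the commutator
  set t := s * g * s⁻¹ * g⁻¹ with ht
  have htm : t ∈ St k u := (St k u).mul_mem hcm ((St k u).inv_mem hg)
  have d1 : κ (n / 2) u t = 1 := by
    rw [ht, κ_mul hcm ((St k u).inv_mem hg) h0, κ_inv hg h0, c1]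
    exact mul_inv_cancel₀ (κ_ne h0)
  have d2 : κ m (1 + u) t = b := by
    rw [ht, κ_mul (St_one_add hcm) (St_one_add ((St k u).inv_mem hg)) h1,
      κ_inv (St_one_add hg) h1, c2, g2, inv_one, mul_one]
  have d3 : κ m (1 - u) t = b⁻¹ := by
    rw [ht, κ_mul (St_one_sub hcm) (St_one_sub ((St k u).inv_mem hg)) h2,
      κ_inv (St_one_sub hg) h2, c3, g3, one_mul]
  have htc : t ∈ ⁅St k v, St k v⁆ := by
    have : t = ⁅s, g⁆ := by rw [ht, commutatorElement_def]
    rw [this]
    exact commutator_mem_commutator hs (St_child hu hg)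
  have hb0 : b ≠ 0 := κ_ne h1
  -- the corrected element
  have hσ' : t⁻¹ * σ ∈ St k u := (St k u).mul_mem ((St k u).inv_mem htm) hσu
  have key := fibre h hu H hσ' ?_ ?_ ?_
  · have hle : ⁅St k u, St k u⁆ ⊔ (U k n u ⊓ U k n (-u)) ≤ ⁅St k v, St k v⁆ ⊔ U k (n + 1) v := by
      rw [← U_succ hu]
      exact sup_le_sup_right (commutator_mono (St_child hu) (St_child hu)) _
    have e : σ = t * (t⁻¹ * σ) := by group
    rw [e]
    exact mul_mem ((le_sup_left : _ ≤ ⁅St k v, St k v⁆ ⊔ U k (n + 1) v) htc) (hle key)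
  · rw [κ_mul ((St k u).inv_mem htm) hσu h0, κ_inv htm h0, d1, e4, inv_one, one_mul]
  · rw [κ_mul (St_one_add ((St k u).inv_mem htm)) (St_one_add hσu) h1,
      κ_inv (St_one_add htm) h1, d2]
    exact inv_mul_cancel₀ hb0
  · rw [κ_mul (St_one_sub ((St k u).inv_mem htm)) (St_one_sub hσu) h2,
      κ_inv (St_one_sub htm) h2, d3, inv_inv]
    exact e5

theorem hyp (n : ℕ) : Hyp k Ω n := by
  induction n with
  | zero =>
    intro v _ σ hσ _ _
    rw [U_zero]
    exact (le_sup_right : _ ≤ ⁅St k v, St k v⁆ ⊔ St k v) hσ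
  | succ n ih => exact hyp_succ ih

/-- decomposition of products at a child -/
lemma decomp {u : Ω} {n₁ n₂ : ℕ} {x : Aut k Ω}
    (hx : x ∈ U k n₁ u ⊔ U k n₂ (-u)) :
    ∃ a ∈ U k n₁ u, ∃ b ∈ U k n₂ (-u), x = a * b := by
  have hU2 : U k n₂ (-u) ≤ St k u := by rw [← St_neg]; exact U_le_St _ (-u)
  have i2 : ((U k n₂ (-u)).subgroupOf (St k u)).Normal := normal_U'
  have hmap : ((U k n₁ u).subgroupOf (St k u) ⊔
      (U k n₂ (-u)).subgroupOf (St k u)).map (St k u).subtype =
      U k n₁ u ⊔ U k n₂ (-u) := by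
    rw [Subgroup.map_sup, subgroupOf_map_subtype, subgroupOf_map_subtype,
      inf_eq_left.mpr (U_le_St _ u), inf_eq_left.mpr hU2]
  rw [← hmap] at hx
  obtain ⟨y, hy, rfl⟩ := hx
  rw [SetLike.mem_coe, mem_sup_of_normal_right] at hy
  obtain ⟨a, ha, b, hb, rfl⟩ := hy
  exact ⟨a, mem_subgroupOf.mp ha, b, mem_subgroupOf.mp hb, rfl⟩

/-- elements moving one square root `√w` two levels above -/
lemma elA (n : ℕ) : ∀ {v w : Ω}, Good k v → f^[n] w = v → ∃ g ∈ U k (n + 1) v, κ 1 w g = -1 := by
  induction n with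
  | zero =>
    intro v w h hw
    have e : w = v := hw
    subst e
    obtain ⟨⟨g, hg, e1, e2⟩, -⟩ := id h
    obtain ⟨u, hu⟩ := exists_child w
    have hgu : g u = u := by rw [fix_of_κ h.ne' hu hg.1, e2, one_mul]
    refine ⟨g, ?_, e1⟩
    rw [U_succ hu, mem_inf, U_zero, U_zero, St_neg]
    exact ⟨⟨hg.1, hgu⟩, ⟨hg.1, hgu⟩⟩
  | succ n ih =>
    intro v w h hw
    rw [Function.iterate_succ_apply'] at hw
    set u := f^[n] w with hudef
    have hu : u ^ 2 = 1 + v := by rw [← hw]; unfold f; ring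
    have hgu := h.child hu
    obtain ⟨g, hg, e1⟩ := ih (v := u) hgu rfl
    have hgs : g ∈ St k u := U_le_St _ _ hg
    have hk := (Ukill (n + 1) hgu hg).1
    have hm := gen h hu (hyp (n + 2)) (hyp (n + 1)) hgs (by
      have : min ((n + 2) / 2) ((n + 1) / 2) = (n + 1) / 2 := by omega
      rw [this]; exact hk)
    obtain ⟨a, ha, b, hb, hab⟩ := decomp hm
    have hbe : b = a⁻¹ * g := by rw [hab]; group
    have hau : a ∈ U k (n + 1) u := U_succ_le _ _ ha
    refine ⟨b, ?_, ?_⟩
    · rw [U_succ hu, mem_inf]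
      refine ⟨?_, hb⟩
      rw [hbe]
      exact mul_mem (inv_mem hau) hg
    · -- `a` acts trivially on the square root of `w`
      have hw2 : a ∈ U k 2 w := by
        apply U_le_of_iter (j := n) rfl
        rw [add_comm]; exact ha
      have hwg : Good k w := hgu.iter rfl
      have haw : a ∈ St k w := U_le_St _ _ hw2
      have hgw : g ∈ St k w := by
        apply U_le_St 1 w
        apply U_le_of_iter (j := n) rfl
        rw [add_comm]; exact hg
      rw [hbe, κ_mul (inv_mem haw) hgw hwg.ne, κ_inv haw hwg.ne, e1]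
      have := (Ukill 2 hwg hw2).1
      norm_num at this
      rw [this]; simp

/-- an element acting trivially on the square roots two levels above has trivial symbol -/
lemma symbC (n : ℕ) : (∀ {v : Ω} {g : Aut k Ω}, Good k v → g ∈ U k (n + 1) v →
    (∀ w, f^[n] w = v → κ 1 w g = 1) → κ ((n + 2) / 2) v g = 1) ∧
    (∀ {v : Ω} {g : Aut k Ω}, Good k v → g ∈ U k (n + 2) v →
    (∀ w, f^[n + 1] w = v → κ 1 w g = 1) → κ ((n + 3) / 2) v g = 1) := by
  induction n with
  | zero =>
    constructor
    · intro v g _ _ hw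
      exact hw v rfl
    · intro v g h hg _
      have := (Ukill 2 h hg).1
      norm_num at this ⊢
      exact this
  | succ n ih =>
    refine ⟨ih.2, ?_⟩
    intro v g h hg hw
    obtain ⟨u, hu⟩ := exists_child v
    obtain ⟨d, hd⟩ := exists_child u
    obtain ⟨d', hd'⟩ := exists_child (-u)
    have hgΓ := hg.1
    have fu : f u = v := by unfold f; rw [hu]; ring
    have fnu : f (-u) = v := by rw [f_neg, fu]
    have fd : f d = u := by unfold f; rw [hd]; ring
    have fd' : f d' = -u := by unfold f; rw [hd']; ring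
    have f2 : f^[2] d = v := by
      show f (f d) = v
      rw [fd, fu]
    have f2' : f^[2] d' = v := by
      show f (f d') = v
      rw [fd', fnu]
    have k1 : κ ((n + 2) / 2) d g = 1 := by
      apply ih.1 ((h.child hu).child hd)
      · exact U_le_of_iter (j := 2) f2 (by rw [show n + 1 + 2 = n + 1 + 2 from rfl]; exact hg)
      · intro w hwd
        apply hw
        show f^[n + 2] w = v
        rw [show n + 2 = 2 + n by ring, Function.iterate_add_apply, hwd, f2]
    have k2 : κ ((n + 2) / 2) d' g = 1 := by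
      apply ih.1 ((h.child_neg hu).child hd')
      · exact U_le_of_iter (j := 2) f2' hg
      · intro w hwd
        apply hw
        show f^[n + 2] w = v
        rw [show n + 2 = 2 + n by ring, Function.iterate_add_apply, hwd, f2']
    rw [← κ_prod h hu hgΓ, show (n + 1 + 3) / 2 = (n + 2) / 2 + 1 by omega,
      κ_child (h.child hu) hd hgΓ, k1, sub_eq_add_neg, κ_child (h.child_neg hu) hd' hgΓ, k2,
      one_mul]

open Classical in
/-- elements swapping the children of exactly the two children of `w` -/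
lemma elB [CharZero Ω] (n : ℕ) : ∀ {v w : Ω}, Good k v → f^[n] w = v → ∃ g ∈ U k (n + 1) v,
    ∀ β, f^[n + 1] β = v → κ 1 (1 + β) g = if f β = w then -1 else 1 := by
  induction n with
  | zero =>
    intro v w h hw
    have e : w = v := hw
    subst e
    obtain ⟨u, hu⟩ := exists_child w
    obtain ⟨g, hg, -, e2, e3⟩ := tri_all h hu 1 (-1) (-1) (Or.inl rfl) (Or.inr rfl) (Or.inr rfl)
    refine ⟨g, ?_, ?_⟩
    · rw [U_succ hu, mem_inf, U_zero, U_zero, St_neg]
      exact ⟨hg, hg⟩
    · intro β hβ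
      have hβ' : f β = w := hβ
      rw [if_pos hβ']
      have h4 : (β - u) * (β + u) = 0 := by
        unfold f at hβ'
        linear_combination hβ' - hu
      rcases mul_eq_zero.mp h4 with h5 | h5
      · have : β = u := by linear_combination h5
        rw [this, e2]
      · have : 1 + β = 1 - u := by linear_combination h5
        rw [this, e3]
  | succ n ih =>
    intro v w h hw
    rw [Function.iterate_succ_apply'] at hw
    set u := f^[n] w with hudef
    have hu : u ^ 2 = 1 + v := by rw [← hw]; unfold f; ring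
    have hgu := h.child hu
    obtain ⟨g, hg, e1⟩ := ih (v := u) hgu rfl
    have hgs : g ∈ St k u := U_le_St _ _ hg
    -- the symbols two levels below
    have hw1 : ∀ w', f^[n] w' = u → κ 1 w' g = 1 := by
      intro w' hw'
      have hG : Good k w' := hgu.iter hw'
      obtain ⟨β, hβ⟩ := exists_child w'
      have fβ : f β = w' := by unfold f; rw [hβ]; ring
      have fβ' : f (-β) = w' := by rw [f_neg, fβ]
      rw [← κ_prod hG hβ hg.1, e1 β (by rw [Function.iterate_succ_apply, fβ, hw']),
        sub_eq_add_neg, e1 (-β) (by rw [Function.iterate_succ_apply, fβ', hw']), fβ, fβ']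
      split_ifs <;> ring
    have hk := (symbC n).1 hgu hg hw1
    have hm := gen h hu (hyp (n + 2)) (hyp (n + 2)) hgs (by rw [min_self]; exact hk)
    obtain ⟨a, ha, b, hb, hab⟩ := decomp hm
    have hbe : b = a⁻¹ * g := by rw [hab]; group
    have hau : a ∈ U k (n + 1) u := U_succ_le _ _ ha
    refine ⟨b, ?_, ?_⟩
    · rw [U_succ hu, mem_inf]
      refine ⟨?_, U_succ_le _ _ hb⟩
      rw [hbe]
      exact mul_mem (inv_mem hau) hg
    · intro β hβ
      rw [Function.iterate_succ_apply'] at hβ
      have h4 : (f^[n + 1] β - u) * (f^[n + 1] β + u) = 0 := by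
        unfold f at hβ ⊢
        linear_combination hβ - hu
      rcases mul_eq_zero.mp h4 with h5 | h5
      · have h6 : f^[n + 1] β = u := by linear_combination h5
        have hG : Good k β := hgu.iter h6
        have ha1 : a ∈ U k 1 β := by
          apply U_le_of_iter (j := n + 1) h6
          rw [show 1 + (n + 1) = n + 2 by ring]; exact ha
        have haβ : a ∈ St k β := U_le_St _ _ ha1
        have hgβ : g ∈ St k β := by
          apply U_le_St 0 β
          apply U_le_of_iter (j := n + 1) h6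
          rw [zero_add]; exact hg
        have := (Ukill 1 hG ha1).2
        norm_num at this
        rw [hbe, κ_mul (St_one_add (inv_mem haβ)) (St_one_add hgβ) hG.ne',
          κ_inv (St_one_add haβ) hG.ne', this, inv_one, one_mul, e1 β h6]
      · have h6 : f^[n + 1] β = -u := by linear_combination h5
        have hG : Good k β := (h.child_neg hu).iter h6
        have hb1 : b ∈ U k 1 β := by
          apply U_le_of_iter (j := n + 1) h6
          rw [show 1 + (n + 1) = n + 2 by ring]; exact hb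
        have := (Ukill 1 hG hb1).2
        norm_num at this
        rw [this, if_neg]
        intro hfw
        rw [Function.iterate_succ_apply, hfw] at h6
        have h7 : u + u = 0 := by
          have : u = -u := by rw [hudef]; exact h6
          linear_combination this
        exact child_ne h hu (add_self_eq_zero.mp h7)

end Q280.Basilica
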