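import Mathlib

set_option autoImplicit false

/-!
# The preimage trees of `x ^ 2 - 1` and Kummer symbols

`Ω` is an algebraically closed field of characteristic zero, `Γ` the group of its automorphisms
over `k` which fix all roots of unity of `2`-power order.
-/

namespace Q280.Basilica

/-- the automorphism group -/
abbrev Aut (k Ω : Type*) [Field k] [Field Ω] [Algebra k Ω] := Ω ≃ₐ[k] Ω

variable {k Ω : Type*} [Field k] [Field Ω] [Algebra k Ω]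

/-- the map `x ↦ x ^ 2 - 1` -/
def f (x : Ω) : Ω := x ^ 2 - 1

lemma inv_fix (a : Aut k Ω) {x : Ω} (h : a x = x) : a⁻¹ x = x := by
  calc a⁻¹ x = a⁻¹ (a x) := by rw [h]
    _ = (a⁻¹ * a) x := rfl
    _ = x := by rw [inv_mul_cancel]; rfl

variable (k Ω) in
/-- the automorphisms fixing all roots of unity of `2`-power order -/
def Γ : Subgroup (Aut k Ω) where
  carrier := {σ | ∀ j : ℕ, ∀ ζ : Ω, ζ ^ (2 ^ j) = 1 → σ ζ = ζ}
  mul_mem' := by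
    intro a b ha hb j ζ h
    rw [AlgEquiv.mul_apply, hb j ζ h, ha j ζ h]
  one_mem' := by intro j ζ _; rfl
  inv_mem' := by
    intro a ha j ζ h
    exact inv_fix a (ha j ζ h)

lemma mem_Γ {σ : Aut k Ω} : σ ∈ Γ k Ω ↔ ∀ j : ℕ, ∀ ζ : Ω, ζ ^ (2 ^ j) = 1 → σ ζ = ζ := Iff.rfl

instance : (Γ k Ω).Normal where
  conj_mem := by
    intro σ hσ s j ζ h
    have h1 : (s⁻¹ ζ) ^ (2 ^ j) = 1 := by rw [← map_pow, h, map_one]
    show s (σ (s⁻¹ ζ)) = ζ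
    rw [hσ j _ h1]
    show (s * s⁻¹) ζ = ζ
    rw [mul_inv_cancel]; rfl

variable (k) in
/-- the stabilizer of `v` in `Γ` -/
def St (v : Ω) : Subgroup (Aut k Ω) where
  carrier := {σ | σ ∈ Γ k Ω ∧ σ v = v}
  mul_mem' := by
    intro a b ha hb
    exact ⟨(Γ k Ω).mul_mem ha.1 hb.1, by rw [AlgEquiv.mul_apply, hb.2, ha.2]⟩
  one_mem' := ⟨(Γ k Ω).one_mem, rfl⟩
  inv_mem' := by
    intro a ha
    exact ⟨(Γ k Ω).inv_mem ha.1, inv_fix a ha.2⟩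

lemma mem_St {v : Ω} {σ : Aut k Ω} : σ ∈ St k v ↔ σ ∈ Γ k Ω ∧ σ v = v := Iff.rfl

variable (k) in
/-- the automorphisms in `Γ` which fix the tree above `v` up to level `n` -/
def U (n : ℕ) (v : Ω) : Subgroup (Aut k Ω) where
  carrier := {σ | σ ∈ Γ k Ω ∧ ∀ x : Ω, f^[n] x = v → σ x = x}
  mul_mem' := by
    intro a b ha hb
    exact ⟨(Γ k Ω).mul_mem ha.1 hb.1, fun x hx => by
      rw [AlgEquiv.mul_apply, hb.2 x hx, ha.2 x hx]⟩
  one_mem' := ⟨(Γ k Ω).one_mem, fun _ _ => rfl⟩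
  inv_mem' := by
    intro a ha
    exact ⟨(Γ k Ω).inv_mem ha.1, fun x hx => inv_fix a (ha.2 x hx)⟩

lemma mem_U {n : ℕ} {v : Ω} {σ : Aut k Ω} :
    σ ∈ U k n v ↔ σ ∈ Γ k Ω ∧ ∀ x : Ω, f^[n] x = v → σ x = x := Iff.rfl

lemma map_f (σ : Aut k Ω) (x : Ω) : σ (f x) = f (σ x) := by
  unfold f; simp

lemma map_iter (σ : Aut k Ω) (n : ℕ) (x : Ω) : σ (f^[n] x) = f^[n] (σ x) := by
  induction n with
  | zero => rfl
  | succ n ih => rw [Function.iterate_succ_apply', Function.iterate_succ_apply', map_f, ih]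

variable [IsAlgClosed Ω]

/-- a chosen root of order `2 ^ m` -/
noncomputable def rt (m : ℕ) (v : Ω) : Ω :=
  (IsAlgClosed.exists_pow_nat_eq v (pow_pos two_pos m)).choose

lemma rt_pow (m : ℕ) (v : Ω) : rt m v ^ (2 ^ m) = v :=
  (IsAlgClosed.exists_pow_nat_eq v (pow_pos two_pos m)).choose_spec

lemma rt_ne {m : ℕ} {v : Ω} (hv : v ≠ 0) : rt m v ≠ 0 := by
  intro h
  apply hv
  rw [← rt_pow m v, h, zero_pow (pow_pos two_pos m).ne']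

/-- the Kummer symbol -/
noncomputable def κ (m : ℕ) (v : Ω) (σ : Aut k Ω) : Ω := σ (rt m v) / rt m v

section

variable {m : ℕ} {v w z : Ω} {σ τ s : Aut k Ω}

lemma κ_eq (hσ : σ ∈ Γ k Ω) (hv : v ≠ 0) (hz : z ^ (2 ^ m) = v) : σ z = κ m v σ * z := by
  have hr : rt m v ≠ 0 := rt_ne hv
  have h1 : (z / rt m v) ^ (2 ^ m) = 1 := by
    rw [div_pow, hz, rt_pow, div_self hv]
  have h2 := hσ m _ h1
  rw [map_div₀] at h2
  have hsr : σ (rt m v) ≠ 0 := by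
    intro h; apply hr; exact (map_eq_zero σ).mp h
  unfold κ
  rw [div_eq_div_iff hsr hr] at h2
  field_simp
  rw [h2]; ring

lemma κ_pow (hσ : σ v = v) (hv : v ≠ 0) : κ m v σ ^ (2 ^ m) = 1 := by
  unfold κ
  rw [div_pow, ← map_pow, rt_pow, hσ, div_self hv]

lemma κ_ne (hv : v ≠ 0) : κ m v σ ≠ 0 := by
  unfold κ
  have hr : rt m v ≠ 0 := rt_ne hv
  apply div_ne_zero _ hr
  intro h; apply hr; exact (map_eq_zero σ).mp h

lemma κ_mul (hσ : σ ∈ St k v) (hτ : τ ∈ St k v) (hv : v ≠ 0) :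
    κ m v (σ * τ) = κ m v σ * κ m v τ := by
  have h1 : (σ * τ) (rt m v) = κ m v (σ * τ) * rt m v :=
    κ_eq ((Γ k Ω).mul_mem hσ.1 hτ.1) hv (rt_pow m v)
  have h2 : (σ * τ) (rt m v) = κ m v τ * (κ m v σ * rt m v) := by
    rw [AlgEquiv.mul_apply, κ_eq hτ.1 hv (rt_pow m v), map_mul, κ_eq hσ.1 hv (rt_pow m v),
      hσ.1 m _ (κ_pow hτ.2 hv)]
  rw [h1] at h2
  have hr : rt m v ≠ 0 := rt_ne hv
  apply mul_right_cancel₀ hr
  rw [h2]; ring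

lemma κ_one (hv : v ≠ 0) : κ m v (1 : Aut k Ω) = 1 := by
  unfold κ
  rw [AlgEquiv.one_apply, div_self (rt_ne hv)]

lemma κ_inv (hσ : σ ∈ St k v) (hv : v ≠ 0) : κ m v σ⁻¹ = (κ m v σ)⁻¹ := by
  have h := κ_mul (m := m) hσ ((St k v).inv_mem hσ) hv
  rw [mul_inv_cancel, κ_one hv] at h
  exact eq_inv_of_mul_eq_one_right h.symm

lemma κ_npow (hσ : σ ∈ St k v) (hv : v ≠ 0) (n : ℕ) : κ m v (σ ^ n) = κ m v σ ^ n := by
  induction n with
  | zero => rw [pow_zero, pow_zero, κ_one hv]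
  | succ n ih => rw [pow_succ, pow_succ, κ_mul ((St k v).pow_mem hσ n) hσ hv, ih]

lemma κ_mulv (hσ : σ ∈ Γ k Ω) (hv : v ≠ 0) (hw : w ≠ 0) :
    κ m (v * w) σ = κ m v σ * κ m w σ := by
  have h1 : σ (rt m v * rt m w) = κ m (v * w) σ * (rt m v * rt m w) :=
    κ_eq hσ (mul_ne_zero hv hw) (by rw [mul_pow, rt_pow, rt_pow])
  rw [map_mul, κ_eq hσ hv (rt_pow m v), κ_eq hσ hw (rt_pow m w)] at h1
  have hr : rt m v * rt m w ≠ 0 := mul_ne_zero (rt_ne hv) (rt_ne hw)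
  apply mul_right_cancel₀ hr
  rw [← h1]; ring

lemma κ_neg (hσ : σ ∈ Γ k Ω) (hv : v ≠ 0) : κ m (-v) σ = κ m v σ := by
  have h1 : (rt m (-1 : Ω)) ^ (2 ^ (m + 1)) = 1 := by
    rw [pow_succ, pow_mul, rt_pow]; norm_num
  have h2 := hσ (m + 1) _ h1
  have h3 : (rt m (-1 : Ω) * rt m v) ^ (2 ^ m) = -v := by
    rw [mul_pow, rt_pow, rt_pow]; ring
  have h4 := κ_eq hσ (neg_ne_zero.mpr hv) h3
  rw [map_mul, h2, κ_eq hσ hv (rt_pow m v)] at h4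
  have hr : rt m (-1 : Ω) * rt m v ≠ 0 := mul_ne_zero (rt_ne (by norm_num)) (rt_ne hv)
  apply mul_right_cancel₀ hr
  rw [← h4]; ring

lemma κ_sq (hσ : σ ∈ Γ k Ω) (hv : v ≠ 0) : κ (m + 1) (v ^ 2) σ = κ m v σ := by
  have h1 : (rt m v) ^ (2 ^ (m + 1)) = v ^ 2 := by
    rw [pow_succ, pow_mul, rt_pow]
  have h2 := κ_eq hσ (pow_ne_zero 2 hv) h1
  rw [κ_eq hσ hv (rt_pow m v)] at h2
  exact (mul_right_cancel₀ (rt_ne hv) h2).symm

lemma κ_succ_sq (hσ : σ ∈ Γ k Ω) (hv : v ≠ 0) : κ (m + 1) v σ ^ 2 = κ m v σ := by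
  have h1 : ((rt (m + 1) v) ^ 2) ^ (2 ^ m) = v := by
    rw [← pow_mul, ← pow_succ', rt_pow]
  have h2 := κ_eq hσ hv h1
  rw [map_pow, κ_eq hσ hv (rt_pow (m + 1) v), mul_pow] at h2
  exact mul_right_cancel₀ (pow_ne_zero 2 (rt_ne hv)) h2

lemma κ_conj (hσ : σ ∈ St k v) (hv : v ≠ 0) :
    κ m (s v) (s * σ * s⁻¹) = s (κ m v σ) := by
  have hmem : s * σ * s⁻¹ ∈ Γ k Ω := (inferInstance : (Γ k Ω).Normal).conj_mem σ hσ.1 s
  have hsv : s v ≠ 0 := by intro h; exact hv ((map_eq_zero s).mp h)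
  have h1 : (s (rt m v)) ^ (2 ^ m) = s v := by rw [← map_pow, rt_pow]
  have h2 := κ_eq hmem hsv h1
  have h3 : (s * σ * s⁻¹) (s (rt m v)) = s (σ (rt m v)) := by
    show s (σ (s⁻¹ (s (rt m v)))) = _
    congr 2
    show (s⁻¹ * s) (rt m v) = _
    rw [inv_mul_cancel]; rfl
  rw [h3, κ_eq hσ.1 hv (rt_pow m v), map_mul] at h2
  have hr : s (rt m v) ≠ 0 := by intro h; exact rt_ne hv ((map_eq_zero s).mp h)
  exact (mul_right_cancel₀ hr h2).symm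

lemma κ_conj_Γ (hs : s ∈ Γ k Ω) (hσ : σ ∈ St k v) (hv : v ≠ 0) :
    κ m (s v) (s * σ * s⁻¹) = κ m v σ := by
  rw [κ_conj hσ hv]
  exact hs m _ (κ_pow hσ.2 hv)

lemma κ_zero (hσ : σ ∈ St k v) (hv : v ≠ 0) : κ 0 v σ = 1 := by
  have := κ_pow (m := 0) hσ.2 hv
  simpa using this

lemma κ_mono {m' : ℕ} (h : κ m v σ = 1) (hm : m' ≤ m) (hσ : σ ∈ Γ k Ω) (hv : v ≠ 0) :
    κ m' v σ = 1 := by
  obtain ⟨d, rfl⟩ := Nat.exists_eq_add_of_le hm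
  clear hm
  induction d with
  | zero => exact h
  | succ d ih =>
    apply ih
    rw [← κ_succ_sq hσ hv, show m' + d + 1 = m' + (d + 1) by ring, h, one_pow]

lemma κ_comm (hσ : σ ∈ St k v) (hτ : τ ∈ St k v) (hv : v ≠ 0) :
    κ m v (σ * τ * σ⁻¹ * τ⁻¹) = 1 := by
  rw [κ_mul ((St k v).mul_mem ((St k v).mul_mem hσ hτ) ((St k v).inv_mem hσ))
    ((St k v).inv_mem hτ) hv, κ_mul ((St k v).mul_mem hσ hτ) ((St k v).inv_mem hσ) hv,
    κ_mul hσ hτ hv, κ_inv hσ hv, κ_inv hτ hv]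
  have h1 := κ_ne (m := m) (σ := σ) hv
  have h2 := κ_ne (m := m) (σ := τ) hv
  field_simp

lemma κ_one_cases (hσ : σ v = v) (hv : v ≠ 0) : κ 1 v σ = 1 ∨ κ 1 v σ = -1 := by
  have := κ_pow (m := 1) hσ hv
  rw [pow_one] at this
  have h : (κ 1 v σ - 1) * (κ 1 v σ + 1) = 0 := by linear_combination this
  rcases mul_eq_zero.mp h with h | h
  · left; linear_combination h
  · right; linear_combination h

end

end Q280.Basilica
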